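import Mathlib

/-!
MP_109285_co, oriented graphs with nearly regular sparse non-adjacency graph, module A.
-/

namespace Pool.Agent.SulR

open Finset

variable {V : Type*} [Fintype V]

open Classical in
/-- indicator of the arcs -/
noncomputable def O (adj : V → V → Prop) (x y : V) : ℝ := if adj x y then 1 else 0

open Classical in
/-- indicator of non-adjacency -/
noncomputable def H (adj : V → V → Prop) (x y : V) : ℝ :=
  if y ≠ x ∧ ¬ adj x y ∧ ¬ adj y x then 1 else 0

open Classical in
/-- indicator of equality -/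
noncomputable def Dg (x y : V) : ℝ := if x = y then 1 else 0

section basic

variable {adj : V → V → Prop}

omit [Fintype V] in
theorem O01 (x y : V) : O adj x y = 0 ∨ O adj x y = 1 := by
  classical
  unfold O
  split_ifs
  · exact Or.inr rfl
  · exact Or.inl rfl

omit [Fintype V] in
theorem O0 (x y : V) : 0 ≤ O adj x y := by
  rcases O01 (adj := adj) x y with h | h <;> rw [h] <;> norm_num

omit [Fintype V] in
theorem H01 (x y : V) : H adj x y = 0 ∨ H adj x y = 1 := by
  classical
  unfold H
  split_ifs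
  · exact Or.inr rfl
  · exact Or.inl rfl

omit [Fintype V] in
theorem H0 (x y : V) : 0 ≤ H adj x y := by
  rcases H01 (adj := adj) x y with h | h <;> rw [h] <;> norm_num

omit [Fintype V] in
theorem Hsymm (x y : V) : H adj x y = H adj y x := by
  classical
  unfold H
  have : (y ≠ x ∧ ¬ adj x y ∧ ¬ adj y x) ↔ (x ≠ y ∧ ¬ adj y x ∧ ¬ adj x y) :=
    ⟨fun h => ⟨h.1.symm, h.2.2, h.2.1⟩, fun h => ⟨h.1.symm, h.2.2, h.2.1⟩⟩
  simp only [this]

omit [Fintype V] in
theorem Dg0 (x y : V) : 0 ≤ Dg x y := by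
  classical
  unfold Dg
  split_ifs <;> norm_num

omit [Fintype V] in
theorem O_one {x y : V} (h : adj x y) : O adj x y = 1 := by
  classical
  exact if_pos h

omit [Fintype V] in
theorem O_zero {x y : V} (h : ¬ adj x y) : O adj x y = 0 := by
  classical
  exact if_neg h

omit [Fintype V] in
theorem H_one {x y : V} (h1 : y ≠ x) (h2 : ¬ adj x y) (h3 : ¬ adj y x) : H adj x y = 1 := by
  classical
  exact if_pos ⟨h1, h2, h3⟩

omit [Fintype V] in
theorem ident (has : ∀ x y, adj x y → ¬ adj y x) (x y : V) :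
    O adj x y + O adj y x + H adj x y + Dg x y = 1 := by
  classical
  by_cases hxy : x = y
  · subst hxy
    have h1 : ¬ adj x x := fun h => has x x h h
    unfold O H Dg
    simp [h1]
  · by_cases h1 : adj x y
    · have h2 := has x y h1
      unfold O H Dg
      simp [h1, h2, hxy]
    · by_cases h2 : adj y x
      · unfold O H Dg
        simp [h1, h2, hxy]
      · have h3 : y ≠ x := fun h => hxy h.symm
        unfold O H Dg
        simp [h1, h2, hxy, h3]

/-- the non-degree into a set -/
noncomputable def hS (adj : V → V → Prop) (y : V) (S : Finset V) : ℝ := ∑ x ∈ S, H adj y x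

omit [Fintype V] in
theorem hS0 (y : V) (S : Finset V) : 0 ≤ hS adj y S := Finset.sum_nonneg fun x _ => H0 y x

theorem hS_le (m : ℝ) (hup : ∀ x, ∑ y, H adj x y ≤ m) (y : V) (S : Finset V) :
    hS adj y S ≤ m := by
  refine le_trans ?_ (hup y)
  exact Finset.sum_le_sum_of_subset_of_nonneg (Finset.subset_univ S) fun x _ _ => H0 y x

/-- few vertices have a large non-degree into a small set -/
theorem few_large (m : ℝ) (hm : 10 ^ 10 ≤ m)
    (hco : ∀ x y, x ≠ y → ∑ z, H adj x z * H adj y z ≤ m / 5000000) (S : Finset V)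
    (hS2 : (S.card : ℝ) ≤ 2 * m) (Y : Finset V) (hY : ∀ y ∈ Y, m / 1000 ≤ hS adj y S) :
    (Y.card : ℝ) ≤ 4000 := by
  classical
  have hm0 : 0 < m := by linarith
  set t : ℝ := (Y.card : ℝ) with ht
  have ht0 : 0 ≤ t := Nat.cast_nonneg _
  set X : ℝ := ∑ y ∈ Y, hS adj y S with hX
  have hX1 : t * (m / 1000) ≤ X := by
    rw [hX, ht, ← nsmul_eq_mul]
    exact Finset.card_nsmul_le_sum Y _ _ hY
  have hX2 : X = ∑ x ∈ S, ∑ y ∈ Y, H adj y x := by
    rw [hX]
    unfold hS
    exact Finset.sum_comm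
  have hcs : X ^ 2 ≤ S.card * ∑ x ∈ S, (∑ y ∈ Y, H adj y x) ^ 2 := by
    rw [hX2]
    exact sq_sum_le_card_mul_sum_sq
  have hsq : ∑ x ∈ S, (∑ y ∈ Y, H adj y x) ^ 2 ≤ X + t ^ 2 * (m / 5000000) := by
    have h1 : ∑ x ∈ S, (∑ y ∈ Y, H adj y x) ^ 2 =
        ∑ y ∈ Y, ∑ y' ∈ Y, ∑ x ∈ S, H adj y x * H adj y' x := by
      simp_rw [sq, Finset.sum_mul_sum]
      rw [Finset.sum_comm]
      apply Finset.sum_congr rfl
      intro y _
      rw [Finset.sum_comm]
    rw [h1]
    have h2 : ∀ y ∈ Y, ∑ y' ∈ Y, ∑ x ∈ S, H adj y x * H adj y' x ≤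
        hS adj y S + t * (m / 5000000) := by
      intro y hy
      have h3 : ∀ y' ∈ Y, ∑ x ∈ S, H adj y x * H adj y' x ≤
          (if y = y' then hS adj y S else 0) + m / 5000000 := by
        intro y' _
        by_cases h : y = y'
        · subst h
          rw [if_pos rfl]
          have h4 : ∑ x ∈ S, H adj y x * H adj y x = hS adj y S := by
            apply Finset.sum_congr rfl
            intro x _
            rcases H01 (adj := adj) y x with h5 | h5 <;> rw [h5] <;> norm_num
          rw [h4]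
          linarith [div_pos hm0 (by norm_num : (0 : ℝ) < 5000000)]
        · rw [if_neg h, zero_add]
          refine le_trans ?_ (hco y y' h)
          exact Finset.sum_le_sum_of_subset_of_nonneg (Finset.subset_univ S)
            fun x _ _ => mul_nonneg (H0 y x) (H0 y' x)
      refine (Finset.sum_le_sum h3).trans (le_of_eq ?_)
      rw [Finset.sum_add_distrib, Finset.sum_ite_eq, if_pos hy, Finset.sum_const, nsmul_eq_mul]
    refine (Finset.sum_le_sum h2).trans (le_of_eq ?_)
    rw [Finset.sum_add_distrib, Finset.sum_const, nsmul_eq_mul]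
    ring
  have hX0 : 0 ≤ X := Finset.sum_nonneg fun y _ => hS0 y S
  have hcs2 : X ^ 2 ≤ 2 * m * (X + t ^ 2 * (m / 5000000)) := by
    refine hcs.trans ?_
    have h0 : 0 ≤ X + t ^ 2 * (m / 5000000) := by positivity
    refine (mul_le_mul_of_nonneg_left hsq (Nat.cast_nonneg _)).trans ?_
    exact mul_le_mul_of_nonneg_right hS2 h0
  by_contra hcon
  push Not at hcon
  have h4 : 4 * m < X := by
    have : 4000 * (m / 1000) < t * (m / 1000) :=
      mul_lt_mul_of_pos_right hcon (by positivity)
    linarith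
  have h5 : (t * (m / 1000)) ^ 2 ≤ X ^ 2 := pow_le_pow_left₀ (by positivity) hX1 2
  have h6 : 2 * m * X < X ^ 2 / 2 := by nlinarith
  have h7 : (t * (m / 1000)) ^ 2 = t ^ 2 * m ^ 2 / 1000000 := by ring
  have h8 : 2 * m * (t ^ 2 * (m / 5000000)) = t ^ 2 * m ^ 2 / 2500000 := by ring
  have h9 : 0 ≤ t ^ 2 * m ^ 2 := by positivity
  rw [mul_add, h8] at hcs2
  rw [h7] at h5
  linarith

/-- the number of non-adjacent pairs between a set and a small set -/
theorem sum_hS (m : ℝ) (hm : 10 ^ 10 ≤ m) (hup : ∀ x, ∑ y, H adj x y ≤ m)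
    (hco : ∀ x y, x ≠ y → ∑ z, H adj x z * H adj y z ≤ m / 5000000) (S : Finset V)
    (hS2 : (S.card : ℝ) ≤ 2 * m) (Q : Finset V) :
    ∑ y ∈ Q, hS adj y S ≤ m / 1000 * Q.card + 4000 * m := by
  classical
  have hm0 : 0 < m := by linarith
  have h1 := few_large m hm hco S hS2 (Q.filter fun y => m / 1000 ≤ hS adj y S)
    (fun y hy => (Finset.mem_filter.1 hy).2)
  have h2 : ∀ y ∈ Q, hS adj y S ≤ m / 1000 + (if m / 1000 ≤ hS adj y S then m else 0) := by
    intro y _
    split_ifs with h
    · have := hS_le m hup y S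
      linarith [div_pos hm0 (by norm_num : (0 : ℝ) < 1000)]
    · push Not at h
      linarith
  refine (Finset.sum_le_sum h2).trans ?_
  rw [Finset.sum_add_distrib, Finset.sum_const, nsmul_eq_mul, ← Finset.sum_filter,
    Finset.sum_const, nsmul_eq_mul]
  have h3 := mul_le_mul_of_nonneg_right h1 hm0.le
  linarith

end basic

end Pool.Agent.SulR
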