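import Pool.Agent.SulR.A

/-!
MP_109285_co, oriented graphs with nearly regular sparse non-adjacency graph, module B.
-/

namespace Pool.Agent.SulR

open Finset

variable {V : Type*} [Fintype V]

open Classical in
/-- out-neighbours -/
noncomputable def Cf (adj : V → V → Prop) (x : V) : Finset V := univ.filter fun y => adj x y

open Classical in
/-- second out-neighbours -/
noncomputable def Nf (adj : V → V → Prop) (x : V) : Finset V :=
  univ.filter fun w => w ≠ x ∧ ¬ adj x w ∧ ∃ u, adj x u ∧ adj u w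

open Classical in
/-- vertices not reached in at most two steps -/
noncomputable def Zf (adj : V → V → Prop) (x : V) : Finset V :=
  univ.filter fun w => w ≠ x ∧ ¬ adj x w ∧ ∀ u, adj x u → ¬ adj u w

section

variable {adj : V → V → Prop}

theorem mem_Cf {x y : V} : y ∈ Cf adj x ↔ adj x y := by
  unfold Cf
  simp

theorem mem_Nf {x w : V} : w ∈ Nf adj x ↔ w ≠ x ∧ ¬ adj x w ∧ ∃ u, adj x u ∧ adj u w := by
  unfold Nf
  simp

theorem mem_Zf {x w : V} :
    w ∈ Zf adj x ↔ w ≠ x ∧ ¬ adj x w ∧ ∀ u, adj x u → ¬ adj u w := by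
  unfold Zf
  simp

theorem part (has : ∀ x y, adj x y → ¬ adj y x) (x : V) (f : V → ℝ) :
    ∑ y, f y = f x + ∑ y ∈ Cf adj x, f y + ∑ y ∈ Nf adj x, f y + ∑ y ∈ Zf adj x, f y := by
  classical
  have h1 : ∀ y, f y = (if y = x then f y else 0) + (if adj x y then f y else 0) +
      (if y ≠ x ∧ ¬ adj x y ∧ ∃ u, adj x u ∧ adj u y then f y else 0) +
      (if y ≠ x ∧ ¬ adj x y ∧ ∀ u, adj x u → ¬ adj u y then f y else 0) := by
    intro y
    by_cases hy : y = x
    · subst hy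
      have h2 : ¬ adj y y := fun h => has y y h h
      simp [h2]
    · by_cases ha : adj x y
      · simp [hy, ha]
      · by_cases hw : ∃ u, adj x u ∧ adj u y
        · have h2 : ¬ ∀ u, adj x u → ¬ adj u y := by
            push Not
            exact hw
          rw [if_neg hy, if_neg ha, if_pos ⟨hy, ha, hw⟩, if_neg fun h => h2 h.2.2]
          ring
        · have h2 : ∀ u, adj x u → ¬ adj u y := fun u h3 h4 => hw ⟨u, h3, h4⟩
          rw [if_neg hy, if_neg ha, if_neg fun h => hw h.2.2, if_pos ⟨hy, ha, h2⟩]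
          ring
  have h2 : ∑ y, f y = ∑ y, ((if y = x then f y else 0) + (if adj x y then f y else 0) +
      (if y ≠ x ∧ ¬ adj x y ∧ ∃ u, adj x u ∧ adj u y then f y else 0) +
      (if y ≠ x ∧ ¬ adj x y ∧ ∀ u, adj x u → ¬ adj u y then f y else 0)) :=
    Finset.sum_congr rfl fun y _ => h1 y
  rw [h2, Finset.sum_add_distrib, Finset.sum_add_distrib, Finset.sum_add_distrib,
    Finset.sum_ite_eq' Finset.univ x, if_pos (Finset.mem_univ x)]
  unfold Cf Nf Zf
  rw [Finset.sum_filter, Finset.sum_filter, Finset.sum_filter]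

/-- the situation to be refuted -/
structure Ctx (adj : V → V → Prop) (m : ℝ) (v : V) : Prop where
  has : ∀ x y, adj x y → ¬ adj y x
  hm : 10 ^ 10 ≤ m
  hlo : ∀ x, (1 - 1 / 1000) * m ≤ ∑ y, H adj x y
  hup : ∀ x, ∑ y, H adj x y ≤ m
  hco : ∀ x y, x ≠ y → ∑ z, H adj x z * H adj y z ≤ m / 5000000
  hns : ∀ x, ∑ y, H adj x y - m / 100 ≤ ((Zf adj x).card : ℝ)
  hv : ∀ x, ∑ y, O adj y v ≤ ∑ y, O adj y x

/-- all vertices outside `v` and its out-neighbours -/
noncomputable def Bf (adj : V → V → Prop) (v : V) : Finset V := by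
  classical
  exact Nf adj v ∪ Zf adj v

/-- outdegree into `Bf` -/
noncomputable def A (adj : V → V → Prop) (v z : V) : ℝ := ∑ b ∈ Bf adj v, O adj z b

theorem disjNZ (v : V) : Disjoint (Nf adj v) (Zf adj v) := by
  rw [Finset.disjoint_left]
  intro w h1 h2
  obtain ⟨u, h3, h4⟩ := (mem_Nf.1 h1).2.2
  exact (mem_Zf.1 h2).2.2 u h3 h4

theorem sum_B (v : V) (f : V → ℝ) :
    ∑ b ∈ Bf adj v, f b = ∑ b ∈ Nf adj v, f b + ∑ b ∈ Zf adj v, f b := by
  classical
  unfold Bf
  exact Finset.sum_union (disjNZ v)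

theorem mem_B {v b : V} : b ∈ Bf adj v ↔ b ∈ Nf adj v ∨ b ∈ Zf adj v := by
  classical
  unfold Bf
  exact Finset.mem_union

theorem Ctx.m0 {m : ℝ} {v : V} (K : Ctx adj m v) : 0 < m := by
  have := K.hm
  linarith

omit [Fintype V] in
theorem sum_one (S : Finset V) : ∑ _x ∈ S, (1 : ℝ) = S.card := by
  rw [Finset.sum_const, nsmul_eq_mul, mul_one]

omit [Fintype V] in
theorem sum_Dg {S : Finset V} {z : V} (hz : z ∈ S) : ∑ b ∈ S, Dg z b = 1 := by
  classical
  unfold Dg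
  rw [Finset.sum_ite_eq, if_pos hz]

theorem Ctx.dg {m : ℝ} {v : V} (K : Ctx adj m v) :
    ∑ y, O adj y v + ∑ y, H adj v y = (Nf adj v).card + (Zf adj v).card := by
  have h1 := part K.has v fun _ => (1 : ℝ)
  simp only [sum_one] at h1
  have h2 : ∑ y, (O adj v y + O adj y v + H adj v y + Dg v y) = ∑ _y : V, (1 : ℝ) :=
    Finset.sum_congr rfl fun y _ => ident K.has v y
  rw [Finset.sum_add_distrib, Finset.sum_add_distrib, Finset.sum_add_distrib,
    sum_Dg (Finset.mem_univ v), sum_one] at h2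
  have h3 : ∑ y, O adj v y = (Cf adj v).card := by
    classical
    unfold O Cf
    rw [Finset.sum_boole]
  rw [h3] at h2
  linarith

/-- fact 1 -/
theorem Ctx.A_le {m : ℝ} {v : V} (K : Ctx adj m v) {z : V} (hz : z ∈ Zf adj v) :
    A adj v z + hS adj z (Bf adj v) + 1 ≤ ∑ y, H adj v y := by
  have hzB : z ∈ Bf adj v := mem_B.2 (Or.inr hz)
  have h1 : ∑ b ∈ Bf adj v, (O adj z b + O adj b z + H adj z b + Dg z b) =
      ∑ _b ∈ Bf adj v, (1 : ℝ) := Finset.sum_congr rfl fun b _ => ident K.has z b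
  rw [Finset.sum_add_distrib, Finset.sum_add_distrib, Finset.sum_add_distrib, sum_Dg hzB,
    sum_B v (fun _ => (1 : ℝ)), sum_one, sum_one] at h1
  have h2 := part K.has v fun y => O adj y z
  have h3 : O adj v z = 0 := O_zero (mem_Zf.1 hz).2.1
  have h4 : ∑ y ∈ Cf adj v, O adj y z = 0 := by
    apply Finset.sum_eq_zero
    intro y hy
    exact O_zero ((mem_Zf.1 hz).2.2 y (mem_Cf.1 hy))
  rw [h3, h4] at h2
  have h5 := sum_B (adj := adj) v fun y => O adj y z
  have h6 := K.hv z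
  have h7 := K.dg
  unfold A hS
  linarith

/-- squares of sets -/
theorem sq_set (has : ∀ x y, adj x y → ¬ adj y x) (S : Finset V) :
    (S.card : ℝ) ^ 2 = 2 * ∑ z ∈ S, ∑ y ∈ S, O adj z y + ∑ z ∈ S, hS adj z S + S.card := by
  have h1 : ∑ z ∈ S, ∑ y ∈ S, (O adj z y + O adj y z + H adj z y + Dg z y) =
      ∑ _z ∈ S, ∑ _y ∈ S, (1 : ℝ) :=
    Finset.sum_congr rfl fun z _ => Finset.sum_congr rfl fun y _ => ident has z y
  have h2 : ∑ z ∈ S, ∑ y ∈ S, O adj y z = ∑ z ∈ S, ∑ y ∈ S, O adj z y := Finset.sum_comm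
  have h3 : ∑ z ∈ S, ∑ y ∈ S, Dg z y = S.card := by
    rw [Finset.sum_congr rfl fun z hz => sum_Dg hz, sum_one]
  simp_rw [Finset.sum_add_distrib] at h1
  rw [h2, h3, sum_one, Finset.sum_const, nsmul_eq_mul] at h1
  unfold hS
  rw [sq]
  linarith

theorem Ctx.s_le {m : ℝ} {v : V} (K : Ctx adj m v) :
    ((Zf adj v).card : ℝ) ≤ 2 * ∑ y, H adj v y - 1 := by
  set s : ℝ := ((Zf adj v).card : ℝ) with hs
  have hs0 : 0 < s := by
    have h1 := K.hns v
    have h2 := K.hlo v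
    have h3 := K.m0
    linarith
  have h1 := sq_set K.has (Zf adj v)
  have h2 : ∑ z ∈ Zf adj v, (∑ y ∈ Zf adj v, O adj z y + hS adj z (Zf adj v) + 1) ≤
      ∑ _z ∈ Zf adj v, ∑ y, H adj v y := by
    apply Finset.sum_le_sum
    intro z hz
    have h3 := K.A_le hz
    have h4 : ∑ y ∈ Zf adj v, O adj z y ≤ A adj v z := by
      unfold A
      rw [sum_B]
      have : 0 ≤ ∑ b ∈ Nf adj v, O adj z b := Finset.sum_nonneg fun b _ => O0 z b
      linarith
    have h5 : hS adj z (Zf adj v) ≤ hS adj z (Bf adj v) := by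
      unfold hS
      rw [sum_B]
      have : 0 ≤ ∑ b ∈ Nf adj v, H adj z b := Finset.sum_nonneg fun b _ => H0 z b
      linarith
    linarith
  rw [Finset.sum_add_distrib, Finset.sum_add_distrib, sum_one, Finset.sum_const,
    nsmul_eq_mul, ← hs] at h2
  rw [← hs] at h1
  have h6 : 0 ≤ ∑ z ∈ Zf adj v, hS adj z (Zf adj v) :=
    Finset.sum_nonneg fun z _ => hS0 z _
  have h7 : s * s ≤ s * (2 * ∑ y, H adj v y - 1) := by nlinarith
  exact le_of_mul_le_mul_left h7 hs0

/-- fact 2 -/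
theorem Ctx.eZW {m : ℝ} {v : V} (K : Ctx adj m v) {W : Finset V} (hW : W ⊆ Nf adj v) (ta : ℝ)
    (hta : ∀ w ∈ W, ∑ y ∈ Cf adj v, O adj y w ≤ ta) :
    (W.card : ℝ) * ((Zf adj v).card - ∑ y, H adj v y + W.card / 2 - ta) ≤
      ∑ z ∈ Zf adj v, ∑ w ∈ W, O adj z w := by
  classical
  have h1 : ∑ w ∈ W, ∑ y, O adj y v ≤ ∑ w ∈ W, (ta + ∑ y ∈ Nf adj v, O adj y w +
      ∑ y ∈ Zf adj v, O adj y w) := by
    apply Finset.sum_le_sum
    intro w hw
    refine (K.hv w).trans ?_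
    rw [part K.has v fun y => O adj y w]
    have h2 : O adj v w = 0 := O_zero (mem_Nf.1 (hW hw)).2.1
    have h3 := hta w hw
    linarith
  rw [Finset.sum_const, nsmul_eq_mul, Finset.sum_add_distrib, Finset.sum_add_distrib,
    Finset.sum_const, nsmul_eq_mul] at h1
  have h2 : ∑ w ∈ W, ∑ y ∈ Nf adj v, O adj y w ≤
      (W.card : ℝ) ^ 2 / 2 + W.card * ((Nf adj v).card - W.card) := by
    have h3 : ∑ w ∈ W, ∑ y ∈ Nf adj v, O adj y w =
        ∑ w ∈ W, ∑ y ∈ W, O adj y w + ∑ w ∈ W, ∑ y ∈ Nf adj v \ W, O adj y w := by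
      rw [← Finset.sum_add_distrib]
      apply Finset.sum_congr rfl
      intro w _
      rw [add_comm, Finset.sum_sdiff hW]
    have h4 : ∑ w ∈ W, ∑ y ∈ W, O adj y w = ∑ w ∈ W, ∑ y ∈ W, O adj w y := Finset.sum_comm
    have h5 := sq_set K.has W
    have h6 : 0 ≤ ∑ z ∈ W, hS adj z W := Finset.sum_nonneg fun z _ => hS0 z _
    have h7 : ∑ w ∈ W, ∑ y ∈ Nf adj v \ W, O adj y w ≤
        W.card * ((Nf adj v).card - W.card) := by
      have h8 : ∀ w ∈ W, ∑ y ∈ Nf adj v \ W, O adj y w ≤ ((Nf adj v).card - W.card : ℝ) := by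
        intro w _
        have h9 : ∑ y ∈ Nf adj v \ W, O adj y w ≤ ∑ _y ∈ Nf adj v \ W, (1 : ℝ) := by
          apply Finset.sum_le_sum
          intro y _
          rcases O01 (adj := adj) y w with h | h <;> rw [h]
          exact zero_le_one
        refine h9.trans (le_of_eq ?_)
        rw [sum_one, Finset.card_sdiff_of_subset hW, Nat.cast_sub (Finset.card_le_card hW)]
      refine (Finset.sum_le_sum h8).trans (le_of_eq ?_)
      rw [Finset.sum_const, nsmul_eq_mul]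
    have h10 : (0 : ℝ) ≤ W.card := Nat.cast_nonneg _
    rw [h3, h4]
    linarith
  have h3 : ∑ w ∈ W, ∑ y ∈ Zf adj v, O adj y w = ∑ z ∈ Zf adj v, ∑ w ∈ W, O adj z w :=
    Finset.sum_comm
  rw [h3] at h1
  have h4 := K.dg
  have h5 : ∑ y, O adj y v = (Nf adj v).card + (Zf adj v).card - ∑ y, H adj v y := by linarith
  rw [h5] at h1
  have h6 : (W.card : ℝ) * ((Nf adj v).card + (Zf adj v).card - ∑ y, H adj v y) =
    W.card * (Nf adj v).card + W.card * ((Zf adj v).card - ∑ y, H adj v y) := by ring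
  rw [h6] at h1
  have h7 : (W.card : ℝ) * ((Zf adj v).card - ∑ y, H adj v y + W.card / 2 - ta) =
    W.card * ((Zf adj v).card - ∑ y, H adj v y) + (W.card : ℝ) ^ 2 / 2 - W.card * ta := by ring
  rw [h7]
  linarith

end

end Pool.Agent.SulR
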