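import Pool.Agent.Sully15.Prob

/-!
MP_109285_co, probability part of the nearly complete case.
-/

namespace Pool.Agent.SulR

open Finset Pool.Agent.GRig

open Classical in
/-- indicator of non-adjacency in a graph -/
noncomputable def Hg {n : ℕ} (G : SimpleGraph (Fin n)) (x y : Fin n) : ℝ :=
  if y ≠ x ∧ ¬ G.Adj x y then 1 else 0

/-- the graph has a nearly regular complement of small codegrees -/
def Nice (n : ℕ) (p : ℝ) (G : SimpleGraph (Fin n)) : Prop :=
  ∃ m : ℝ, 10 ^ 10 ≤ m ∧ (1 - p) * n ≤ m ∧ (∀ x, (1 - 1 / 1000) * m ≤ ∑ y, Hg G x y) ∧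
    (∀ x, ∑ y, Hg G x y ≤ m) ∧ ∀ x y, x ≠ y → ∑ z, Hg G x z * Hg G y z ≤ m / 5000000

open Classical in
/-- exchange of the two values of the bits -/
theorem pr_flip {ι : Type*} [Fintype ι] [DecidableEq ι] (p : ℝ) (A : (ι → Bool) → Prop) :
    pr p A = pr (1 - p) (fun ω => A (fun i => !ω i)) := by
  unfold pr
  refine Fintype.sum_equiv (Equiv.piCongrRight (fun _ : ι => Equiv.boolNot)) _ _ ?_
  intro ω
  have h1 : (fun i => !((Equiv.piCongrRight (fun _ : ι => Equiv.boolNot)) ω i)) = ω := by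
    funext i
    simp
  have h2 : wt (1 - p) ((Equiv.piCongrRight (fun _ : ι => Equiv.boolNot)) ω) = wt p ω := by
    unfold wt
    refine Finset.prod_congr rfl fun i _ => ?_
    unfold bw
    cases h : ω i <;> simp [h]
  change _ = if A (fun i => !((Equiv.piCongrRight (fun _ : ι => Equiv.boolNot)) ω i)) then _ else _
  rw [h1, h2]

variable {n : ℕ}

open Classical in
theorem Hg_flip (ω : Sym2 (Fin n) → Bool) (x y : Fin n) :
    Hg (gr (fun i => !ω i)) x y = if y ≠ x ∧ ω s(x, y) = true then 1 else 0 := by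
  unfold Hg
  refine if_congr ?_ rfl rfl
  constructor
  · rintro ⟨h1, h2⟩
    refine ⟨h1, ?_⟩
    by_contra h3
    exact h2 ⟨h1.symm, by simpa using h3⟩
  · rintro ⟨h1, h2⟩
    refine ⟨h1, ?_⟩
    rintro ⟨-, h3⟩
    simp [h2] at h3

open Classical in
theorem sum_Hg (ω : Sym2 (Fin n) → Bool) (x : Fin n) :
    ∑ y, Hg (gr (fun i => !ω i)) x y =
      (Sully15.cnt ((Finset.univ.erase x).image (fun y => s(x, y))) ω : ℝ) := by
  rw [Sully15.cnt_star]
  unfold Sully15.Nb
  rw [Finset.card_filter]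
  push_cast
  refine Finset.sum_congr rfl fun y _ => ?_
  rw [Hg_flip]
  refine if_congr ?_ rfl rfl
  constructor
  · rintro ⟨h1, h2⟩
    exact ⟨h1.symm, h2⟩
  · rintro ⟨h1, h2⟩
    exact ⟨h1.symm, h2⟩

open Classical in
theorem star_card (x : Fin n) :
    (((Finset.univ.erase x).image (fun y => s(x, y))).card : ℝ) = n - 1 := by
  rw [Finset.card_image_of_injOn]
  · rw [Finset.card_erase_of_mem (Finset.mem_univ _), Finset.card_univ, Fintype.card_fin,
      Nat.cast_sub (Nat.one_le_iff_ne_zero.2 (Nat.ne_of_gt (Nat.lt_of_le_of_lt (Nat.zero_le _) x.2)))]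
    simp
  · intro a _ b _ hab
    simp only [Sym2.eq_iff] at hab
    rcases hab with h | h
    · exact h.2
    · rw [h.2, ← h.1]

open Classical in
/-- some degree is large -/
theorem pr_up {q δ : ℝ} (h0 : 0 ≤ q) (h1 : q ≤ 1) (hδ0 : 0 ≤ δ) (hδ1 : δ ≤ 1) (x : Fin n) :
    pr q (fun ω : Sym2 (Fin n) → Bool =>
        ¬ ∑ y, Hg (gr (fun i => !ω i)) x y ≤ (1 + δ) * (q * n)) ≤
      Real.exp (-(δ ^ 2 / 4 * (q * n))) := by
  have e1 : pr q (fun ω : Sym2 (Fin n) → Bool =>
        ¬ ∑ y, Hg (gr (fun i => !ω i)) x y ≤ (1 + δ) * (q * n)) ≤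
      pr q (fun ω : Sym2 (Fin n) → Bool => δ / 2 * ((1 + δ) * (q * n)) ≤
          δ / 2 * (Sully15.cnt ((Finset.univ.erase x).image (fun y => s(x, y))) ω : ℝ)) := by
    refine pr_mono h0 h1 fun ω hω => ?_
    rw [sum_Hg, not_le] at hω
    exact mul_le_mul_of_nonneg_left hω.le (by positivity)
  refine e1.trans ((Sully15.tail h0 h1 (by rw [abs_le]; constructor <;> linarith) _ _).trans
    (Real.exp_le_exp.2 ?_))
  rw [star_card]
  have h3 : 0 ≤ q * (δ / 2 + (δ / 2) ^ 2) := by positivity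
  nlinarith

open Classical in
/-- some degree is small -/
theorem pr_lo {q δ : ℝ} (h0 : 0 ≤ q) (h1 : q ≤ 1) (hδ0 : 0 ≤ δ) (hδ1 : δ ≤ 1) (x : Fin n) :
    pr q (fun ω : Sym2 (Fin n) → Bool =>
        ¬ (1 - δ) * (q * n) ≤ ∑ y, Hg (gr (fun i => !ω i)) x y) ≤
      Real.exp (1 - (δ ^ 2 / 4 * (q * n))) := by
  have e1 : pr q (fun ω : Sym2 (Fin n) → Bool =>
        ¬ (1 - δ) * (q * n) ≤ ∑ y, Hg (gr (fun i => !ω i)) x y) ≤
      pr q (fun ω : Sym2 (Fin n) → Bool => (-(δ / 2)) * ((1 - δ) * (q * n)) ≤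
          (-(δ / 2)) * (Sully15.cnt ((Finset.univ.erase x).image (fun y => s(x, y))) ω : ℝ)) := by
    refine pr_mono h0 h1 fun ω hω => ?_
    rw [sum_Hg, not_le] at hω
    have := mul_le_mul_of_nonneg_left hω.le (by positivity : 0 ≤ δ / 2)
    linarith
  refine e1.trans ((Sully15.tail h0 h1 (by rw [abs_le]; constructor <;> linarith) _ _).trans
    (Real.exp_le_exp.2 ?_))
  rw [star_card]
  have h3 : q * (δ / 2 - (δ / 2) ^ 2) ≤ 1 := by nlinarith
  nlinarith

open Classical in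
/-- one codegree is large -/
theorem pr_co {q : ℝ} (h0 : 0 ≤ q) (h1 : q ≤ 1) {x y : Fin n} (hxy : x ≠ y) (k : ℕ) :
    pr q (fun ω : Sym2 (Fin n) → Bool =>
        (k : ℝ) ≤ ∑ z, Hg (gr (fun i => !ω i)) x z * Hg (gr (fun i => !ω i)) y z) ≤
      (n * q ^ 2) ^ k / k.factorial := by
  set U : Finset (Fin n) := (Finset.univ.erase x).erase y with hU
  have hUn : U.card ≤ n := (Finset.card_le_univ _).trans (by rw [Fintype.card_fin])
  have e1 : pr q (fun ω : Sym2 (Fin n) → Bool =>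
        (k : ℝ) ≤ ∑ z, Hg (gr (fun i => !ω i)) x z * Hg (gr (fun i => !ω i)) y z) ≤
      pr q (fun ω : Sym2 (Fin n) → Bool => ∃ S ∈ U.powersetCard k,
        ∀ e ∈ S.image (fun z => s(x, z)) ∪ S.image (fun z => s(y, z)), ω e = true) := by
    refine pr_mono h0 h1 fun ω hω => ?_
    set C : Finset (Fin n) := U.filter (fun z => ω s(x, z) = true ∧ ω s(y, z) = true) with hC
    have h2 : ∑ z, Hg (gr (fun i => !ω i)) x z * Hg (gr (fun i => !ω i)) y z = (C.card : ℝ) := by
      rw [hC, hU, Finset.card_eq_sum_ones, Finset.sum_filter]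
      push_cast
      rw [← Finset.sum_subset (Finset.subset_univ ((Finset.univ.erase x).erase y))]
      · refine Finset.sum_congr rfl fun z hz => ?_
        rw [Finset.mem_erase, Finset.mem_erase] at hz
        rw [Hg_flip, Hg_flip]
        by_cases a1 : ω s(x, z) = true
        · by_cases a2 : ω s(y, z) = true
          · rw [if_pos ⟨hz.2.1, a1⟩, if_pos ⟨hz.1, a2⟩, if_pos ⟨a1, a2⟩, one_mul]
          · rw [if_neg (fun h : z ≠ y ∧ ω s(y, z) = true => a2 h.2),
              if_neg (fun h : ω s(x, z) = true ∧ ω s(y, z) = true => a2 h.2), mul_zero]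
        · rw [if_neg (fun h : z ≠ x ∧ ω s(x, z) = true => a1 h.2),
            if_neg (fun h : ω s(x, z) = true ∧ ω s(y, z) = true => a1 h.1), zero_mul]
      · intro z _ hz
        rw [Hg_flip, Hg_flip]
        have : z = x ∨ z = y := by
          by_contra hcon
          rw [not_or] at hcon
          exact hz (Finset.mem_erase.2 ⟨hcon.2, Finset.mem_erase.2 ⟨hcon.1, Finset.mem_univ _⟩⟩)
        rcases this with rfl | rfl
        · rw [if_neg (fun h => h.1 rfl), zero_mul]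
        · rw [if_neg (fun h : z ≠ z ∧ ω s(z, z) = true => h.1 rfl), mul_zero]
    rw [h2] at hω
    have h3 : k ≤ C.card := by exact_mod_cast hω
    obtain ⟨S, hS, hSk⟩ := Finset.exists_subset_card_eq h3
    refine ⟨S, Finset.mem_powersetCard.2 ⟨hS.trans (Finset.filter_subset _ _), hSk⟩, ?_⟩
    intro e he
    rw [Finset.mem_union, Finset.mem_image, Finset.mem_image] at he
    rcases he with ⟨z, hz, rfl⟩ | ⟨z, hz, rfl⟩
    · exact (Finset.mem_filter.1 (hS hz)).2.1
    · exact (Finset.mem_filter.1 (hS hz)).2.2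
  refine e1.trans ((pr_exists_le h0 h1 _ _).trans ?_)
  have e2 : ∀ S ∈ U.powersetCard k, pr q (fun ω : Sym2 (Fin n) → Bool =>
      ∀ e ∈ S.image (fun z => s(x, z)) ∪ S.image (fun z => s(y, z)), ω e = true) =
      (q ^ 2) ^ k := by
    intro S hS
    rw [Finset.mem_powersetCard] at hS
    obtain ⟨hSU, hSk⟩ := hS
    rw [pr_all]
    have hd : Disjoint (S.image (fun z => s(x, z))) (S.image (fun z => s(y, z))) := by
      rw [Finset.disjoint_left]
      intro e he1 he2
      rw [Finset.mem_image] at he1 he2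
      obtain ⟨z, hz, rfl⟩ := he1
      obtain ⟨w, hw, hzw⟩ := he2
      rw [Sym2.eq_iff] at hzw
      have hw' := hSU hw
      rw [hU, Finset.mem_erase, Finset.mem_erase] at hw'
      rcases hzw with h | h
      · exact hxy h.1.symm
      · exact hw'.2.1 h.2
    have hi : ∀ v : Fin n, Set.InjOn (fun z => s(v, z)) (S : Set (Fin n)) := by
      intro v a _ b _ hab
      simp only [Sym2.eq_iff] at hab
      rcases hab with h | h
      · exact h.2
      · rw [h.2, ← h.1]
    rw [Finset.card_union_of_disjoint hd, Finset.card_image_of_injOn (hi x),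
      Finset.card_image_of_injOn (hi y), hSk, ← two_mul, pow_mul]
  rw [Finset.sum_congr rfl e2, Finset.sum_const, Finset.card_powersetCard, nsmul_eq_mul]
  have e3 : ((U.card.choose k : ℕ) : ℝ) ≤ (n : ℝ) ^ k / k.factorial := by
    refine (Nat.choose_le_pow_div k U.card).trans ?_
    gcongr
  calc ((U.card.choose k : ℕ) : ℝ) * (q ^ 2) ^ k ≤ ((n : ℝ) ^ k / k.factorial) * (q ^ 2) ^ k := by
        gcongr
    _ = (n * q ^ 2) ^ k / k.factorial := by
        rw [mul_pow]
        ring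

/-- the union bound for the codegrees -/
theorem co_bound {q L : ℝ} {k : ℕ} (hn : 0 < n) (hq0 : 0 < q) (hq2 : q ≤ 1 / 10 ^ 9)
    (_hL : 0 ≤ L) (hqn : 10 ^ 10 * L ≤ q * n) (hk : q * n / 5000000 ≤ k) :
    ((n : ℝ) * q ^ 2) ^ k / k.factorial ≤ Real.exp (-(8000 * L)) := by
  have hn0 : (0 : ℝ) < n := by exact_mod_cast hn
  have hk0 : (0 : ℝ) < k := lt_of_lt_of_le (by positivity) hk
  -- `k ^ k / k! ≤ exp k`
  have h1 : (k : ℝ) ^ k / k.factorial ≤ Real.exp k := Real.pow_div_factorial_le_exp (k : ℝ) hk0.le k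
  have h2 : (n : ℝ) * q ^ 2 ≤ k * (1 / 200) := by
    have h3 : q * n / 5000000 * (1 / 200) ≤ k * (1 / 200) :=
      mul_le_mul_of_nonneg_right hk (by norm_num)
    refine le_trans ?_ h3
    have h4 : q * (q * n) ≤ 1 / 10 ^ 9 * (q * n) :=
      mul_le_mul_of_nonneg_right hq2 (by positivity)
    have : (n : ℝ) * q ^ 2 = q * (q * n) := by ring
    rw [this]
    refine h4.trans (le_of_eq ?_)
    ring
  have h5 : ((n : ℝ) * q ^ 2) ^ k ≤ (k : ℝ) ^ k * (1 / 200) ^ k := by
    rw [← mul_pow]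
    exact pow_le_pow_left₀ (by positivity) h2 k
  have h6 : (1 / 200 : ℝ) ^ k ≤ Real.exp (-(5 * k)) := by
    have h7 : (1 / 200 : ℝ) ≤ Real.exp (-5) := by
      rw [Real.exp_neg, ← one_div]
      apply one_div_le_one_div_of_le (Real.exp_pos _)
      have h8 : Real.exp 5 = Real.exp 1 ^ 5 := by rw [← Real.exp_nat_mul]; norm_num
      rw [h8]
      have h9 := Real.exp_one_lt_d9
      calc Real.exp 1 ^ 5 ≤ 2.7182818286 ^ 5 :=
            pow_le_pow_left₀ (Real.exp_pos _).le h9.le 5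
        _ ≤ 200 := by norm_num
    have h8 := pow_le_pow_left₀ (by norm_num) h7 k
    rw [← Real.exp_nat_mul] at h8
    refine h8.trans (le_of_eq ?_)
    ring_nf
  have h10 : ((n : ℝ) * q ^ 2) ^ k / k.factorial ≤ Real.exp k * Real.exp (-(5 * k)) := by
    calc ((n : ℝ) * q ^ 2) ^ k / k.factorial ≤ (k : ℝ) ^ k * (1 / 200) ^ k / k.factorial := by
          gcongr
      _ = (k : ℝ) ^ k / k.factorial * (1 / 200) ^ k := by ring
      _ ≤ Real.exp k * Real.exp (-(5 * k)) := by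
          apply mul_le_mul h1 h6 (by positivity) (Real.exp_pos _).le
  refine h10.trans ?_
  rw [← Real.exp_add]
  apply Real.exp_le_exp.2
  have : 2000 * L ≤ k := by
    refine le_trans ?_ hk
    rw [le_div_iff₀ (by norm_num)]
    linarith
  linarith

theorem nice_prob (n : ℕ) (p : ℝ) (hn : 3 ≤ n) (hq1 : 10 ^ 10 * Real.log n / n ≤ 1 - p)
    (hq2 : 1 - p ≤ 1 / 10 ^ 9) : 1 - 1 / (n : ℝ) ≤ prob n p (Nice n p) := by
  have hn0 : (0 : ℝ) < n := by exact_mod_cast (by omega : 0 < n)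
  have hn3 : (3 : ℝ) ≤ n := by exact_mod_cast hn
  obtain ⟨L, hL⟩ : ∃ L, L = Real.log n := ⟨_, rfl⟩
  have hL1 : 1 ≤ L := by
    rw [hL, Real.le_log_iff_exp_le hn0]
    have := Real.exp_one_lt_d9
    linarith
  have hnL : (n : ℝ) = Real.exp L := by rw [hL, Real.exp_log hn0]
  obtain ⟨q, hq⟩ : ∃ q, q = 1 - p := ⟨_, rfl⟩
  rw [← hq, ← hL] at hq1
  rw [← hq] at hq2
  have hqn : 10 ^ 10 * L ≤ q * n := by
    rwa [div_le_iff₀ hn0] at hq1
  have hq0 : 0 < q := by
    have : 0 < q * n := lt_of_lt_of_le (by positivity) hqn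
    exact pos_of_mul_pos_left this hn0.le
  have hq3 : q ≤ 1 := hq2.trans (by norm_num)
  obtain ⟨m, hm⟩ : ∃ m : ℝ, m = (1 + 1 / 10000) * (q * n) := ⟨_, rfl⟩
  have hqnm : q * n ≤ m := by rw [hm]; nlinarith
  obtain ⟨k, hk⟩ : ∃ k : ℕ, k = ⌈m / 5000000⌉₊ := ⟨_, rfl⟩
  have hk1 : m / 5000000 ≤ k := by rw [hk]; exact Nat.le_ceil _
  have hk2 : q * n / 5000000 ≤ k := le_trans (by gcongr) hk1
  rw [prob_eq, pr_flip, ← hq]
  -- the bad events
  have e1 : pr q (fun ω : Sym2 (Fin n) → Bool => ¬ Nice n p (gr (fun i => !ω i))) ≤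
      pr q (fun ω : Sym2 (Fin n) → Bool =>
        (∃ x ∈ (Finset.univ : Finset (Fin n)),
          ¬ ∑ y, Hg (gr (fun i => !ω i)) x y ≤ (1 + 1 / 10000) * (q * n)) ∨
        ((∃ x ∈ (Finset.univ : Finset (Fin n)),
          ¬ (1 - 1 / 10000) * (q * n) ≤ ∑ y, Hg (gr (fun i => !ω i)) x y) ∨
        (∃ z ∈ (Finset.univ : Finset (Fin n × Fin n)).filter (fun z => z.1 ≠ z.2),
          (k : ℝ) ≤ ∑ w, Hg (gr (fun i => !ω i)) z.1 w * Hg (gr (fun i => !ω i)) z.2 w))) := by
    refine pr_mono hq0.le hq3 fun ω hω => ?_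
    by_contra hcon
    rw [not_or, not_or] at hcon
    obtain ⟨c1, c2, c3⟩ := hcon
    push Not at c1 c2 c3
    apply hω
    refine ⟨m, ?_, ?_, fun x => ?_, fun x => ?_, fun x y hxy => ?_⟩
    · refine le_trans ?_ hqnm
      nlinarith
    · rw [← hq]
      exact hqnm
    · refine le_trans ?_ (c2 x (Finset.mem_univ _))
      rw [hm]
      have : 0 < q * n := by positivity
      nlinarith
    · rw [hm]
      exact c1 x (Finset.mem_univ _)
    · by_contra hlt
      rw [not_le] at hlt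
      have h3 := c3 (x, y) (Finset.mem_filter.2 ⟨Finset.mem_univ _, hxy⟩)
      -- the sum is a natural number
      obtain ⟨c, hc⟩ : ∃ c : ℕ, ∑ w, Hg (gr (fun i => !ω i)) x w * Hg (gr (fun i => !ω i)) y w =
          (c : ℝ) := by
        classical
        refine ⟨∑ w, (if (w ≠ x ∧ ω s(x, w) = true) ∧ (w ≠ y ∧ ω s(y, w) = true) then 1 else 0), ?_⟩
        push_cast
        refine Finset.sum_congr rfl fun w _ => ?_
        rw [Hg_flip, Hg_flip]
        by_cases b1 : w ≠ x ∧ ω s(x, w) = true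
        · by_cases b2 : w ≠ y ∧ ω s(y, w) = true
          · rw [if_pos b1, if_pos b2, if_pos ⟨b1, b2⟩, one_mul]
          · rw [if_neg b2, if_neg (fun h : (w ≠ x ∧ ω s(x, w) = true) ∧
              (w ≠ y ∧ ω s(y, w) = true) => b2 h.2), mul_zero]
        · rw [if_neg b1, if_neg (fun h : (w ≠ x ∧ ω s(x, w) = true) ∧
            (w ≠ y ∧ ω s(y, w) = true) => b1 h.1), zero_mul]
      rw [hc] at hlt
      simp only at h3
      rw [hc] at h3
      have h4 : k ≤ c := by rw [hk]; exact Nat.ceil_le.2 hlt.le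
      have h5 : (k : ℝ) ≤ c := by exact_mod_cast h4
      linarith
  have e2 := pr_or_le hq0.le hq3 (fun ω : Sym2 (Fin n) → Bool =>
        ∃ x ∈ (Finset.univ : Finset (Fin n)),
          ¬ ∑ y, Hg (gr (fun i => !ω i)) x y ≤ (1 + 1 / 10000) * (q * n))
        (fun ω : Sym2 (Fin n) → Bool => (∃ x ∈ (Finset.univ : Finset (Fin n)),
          ¬ (1 - 1 / 10000) * (q * n) ≤ ∑ y, Hg (gr (fun i => !ω i)) x y) ∨
        (∃ z ∈ (Finset.univ : Finset (Fin n × Fin n)).filter (fun z => z.1 ≠ z.2),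
          (k : ℝ) ≤ ∑ w, Hg (gr (fun i => !ω i)) z.1 w * Hg (gr (fun i => !ω i)) z.2 w))
  have e3 := pr_or_le hq0.le hq3 (fun ω : Sym2 (Fin n) → Bool =>
        (∃ x ∈ (Finset.univ : Finset (Fin n)),
          ¬ (1 - 1 / 10000) * (q * n) ≤ ∑ y, Hg (gr (fun i => !ω i)) x y))
        (fun ω : Sym2 (Fin n) → Bool =>
          ∃ z ∈ (Finset.univ : Finset (Fin n × Fin n)).filter (fun z => z.1 ≠ z.2),
          (k : ℝ) ≤ ∑ w, Hg (gr (fun i => !ω i)) z.1 w * Hg (gr (fun i => !ω i)) z.2 w)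
  have hexp : 1 / 10000 ^ 2 / 4 * (q * n) ≥ 25 * L := by nlinarith
  have f1 : pr q (fun ω : Sym2 (Fin n) → Bool => ∃ x ∈ (Finset.univ : Finset (Fin n)),
          ¬ ∑ y, Hg (gr (fun i => !ω i)) x y ≤ (1 + 1 / 10000) * (q * n)) ≤
      Real.exp (-(23 * L)) := by
    refine (pr_exists_le hq0.le hq3 _ _).trans ((Finset.sum_le_sum fun x _ =>
      pr_up hq0.le hq3 (by norm_num) (by norm_num) x).trans ?_)
    rw [Finset.sum_const, nsmul_eq_mul, Finset.card_univ, Fintype.card_fin, hnL, ← Real.exp_add,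
      ← hnL]
    apply Real.exp_le_exp.2
    have : (1 / 10000 : ℝ) ^ 2 / 4 * (q * n) = 1 / 10000 ^ 2 / 4 * (q * n) := by ring
    rw [this]
    linarith
  have f2 : pr q (fun ω : Sym2 (Fin n) → Bool => ∃ x ∈ (Finset.univ : Finset (Fin n)),
          ¬ (1 - 1 / 10000) * (q * n) ≤ ∑ y, Hg (gr (fun i => !ω i)) x y) ≤
      Real.exp (-(23 * L)) := by
    refine (pr_exists_le hq0.le hq3 _ _).trans ((Finset.sum_le_sum fun x _ =>
      pr_lo hq0.le hq3 (by norm_num) (by norm_num) x).trans ?_)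
    rw [Finset.sum_const, nsmul_eq_mul, Finset.card_univ, Fintype.card_fin, hnL, ← Real.exp_add,
      ← hnL]
    apply Real.exp_le_exp.2
    have : (1 / 10000 : ℝ) ^ 2 / 4 * (q * n) = 1 / 10000 ^ 2 / 4 * (q * n) := by ring
    rw [this]
    linarith
  have f3 : pr q (fun ω : Sym2 (Fin n) → Bool =>
          ∃ z ∈ (Finset.univ : Finset (Fin n × Fin n)).filter (fun z => z.1 ≠ z.2),
          (k : ℝ) ≤ ∑ w, Hg (gr (fun i => !ω i)) z.1 w * Hg (gr (fun i => !ω i)) z.2 w) ≤
      Real.exp (-(23 * L)) := by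
    refine (pr_exists_le hq0.le hq3 _ _).trans ?_
    have g1 : ∀ z ∈ (Finset.univ : Finset (Fin n × Fin n)).filter (fun z => z.1 ≠ z.2),
        pr q (fun ω : Sym2 (Fin n) → Bool =>
          (k : ℝ) ≤ ∑ w, Hg (gr (fun i => !ω i)) z.1 w * Hg (gr (fun i => !ω i)) z.2 w) ≤
        Real.exp (-(8000 * L)) := by
      intro z hz
      exact (pr_co hq0.le hq3 (Finset.mem_filter.1 hz).2 k).trans
        (co_bound (by omega) hq0 hq2 (by linarith) hqn hk2)
    refine (Finset.sum_le_sum g1).trans ?_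
    rw [Finset.sum_const, nsmul_eq_mul]
    have g2 : (((Finset.univ : Finset (Fin n × Fin n)).filter (fun z => z.1 ≠ z.2)).card : ℝ) ≤
        Real.exp (2 * L) := by
      have g3 : (((Finset.univ : Finset (Fin n × Fin n)).filter (fun z => z.1 ≠ z.2)).card : ℝ) ≤
          (n : ℝ) * n := by
        have := Finset.card_le_univ ((Finset.univ : Finset (Fin n × Fin n)).filter
          (fun z => z.1 ≠ z.2))
        rw [Fintype.card_prod, Fintype.card_fin] at this
        exact_mod_cast this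
      refine g3.trans (le_of_eq ?_)
      rw [hnL, ← Real.exp_add]
      ring_nf
    refine (mul_le_mul_of_nonneg_right g2 (Real.exp_pos _).le).trans ?_
    rw [← Real.exp_add]
    apply Real.exp_le_exp.2
    linarith
  have e4 := pr_not q (fun ω : Sym2 (Fin n) → Bool => Nice n p (gr (fun i => !ω i)))
  have g4 : 3 * Real.exp (-(23 * L)) ≤ 1 / n := by
    have h1 : Real.exp (-(23 * L)) = Real.exp (-(22 * L)) * Real.exp (-L) := by
      rw [← Real.exp_add]
      ring_nf
    have h2 : (1 : ℝ) / n = Real.exp (-L) := by rw [hnL, Real.exp_neg, one_div]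
    have h3 : 3 * Real.exp (-(22 * L)) ≤ 1 := by
      have h4 : Real.exp (-(22 * L)) = 1 / Real.exp (22 * L) := by
        rw [Real.exp_neg, one_div]
      rw [h4, mul_one_div, div_le_one (Real.exp_pos _)]
      have := Real.add_one_le_exp (22 * L)
      linarith
    rw [h1, h2]
    have h5 := Real.exp_pos (-L)
    nlinarith
  linarith

end Pool.Agent.SulR
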