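import Pool.Agent.SulR.E
import Pool.Agent.SulR.G
import Pool.Agent.Sully15.Fin2

/-!
MP_109285_co, the bridge from graphs to orientations in the nearly complete case.
-/

namespace Pool.Agent.SulR

open Finset

theorem H_eq {n : ℕ} {G : SimpleGraph (Fin n)} {adj : Fin n → Fin n → Prop}
    (hG : ∀ x y, (adj x y ∨ adj y x) ↔ G.Adj x y) (x y : Fin n) : H adj x y = Hg G x y := by
  classical
  unfold H Hg
  have h1 : (y ≠ x ∧ ¬ adj x y ∧ ¬ adj y x) ↔ (y ≠ x ∧ ¬ G.Adj x y) := by
    rw [← hG x y, not_or]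
  simp only [h1]

theorem nice_good (n : ℕ) (p : ℝ) (hn : 0 < n) (G : SimpleGraph (Fin n)) (h : Nice n p G) :
    Sully15.GoodS n ((1 - p) * n / 100) G := by
  intro adj has hG
  obtain ⟨m, hm, hpm, hlo, hup, hco⟩ := h
  have : Nonempty (Fin n) := ⟨⟨0, hn⟩⟩
  obtain ⟨v, hv⟩ := nc2 adj has m hm
    (fun x => by
      rw [Finset.sum_congr rfl fun y _ => H_eq hG x y]
      exact hlo x)
    (fun x => by
      rw [Finset.sum_congr rfl fun y _ => H_eq hG x y]
      exact hup x)
    (fun x y hxy => by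
      rw [Finset.sum_congr rfl fun z _ => by rw [H_eq hG x z, H_eq hG y z]]
      exact hco x y hxy)
  exact ⟨v, by linarith⟩

end Pool.Agent.SulR
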