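import Pool.Agent.SulR.B

/-!
MP_109285_co, oriented graphs with nearly regular sparse non-adjacency graph, module C.
-/

namespace Pool.Agent.SulR

open Finset

variable {V : Type*} [Fintype V]

open Classical in
/-- indicator of `w` not being reached from `z` -/
noncomputable def ze (adj : V → V → Prop) (z w : V) : ℝ := if w ∈ Zf adj z then 1 else 0

section

variable {adj : V → V → Prop}

theorem ze0 (z w : V) : 0 ≤ ze adj z w := by
  classical
  unfold ze
  split_ifs <;> norm_num

theorem ze_le (z w : V) : ze adj z w ≤ 1 := by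
  classical
  unfold ze
  split_ifs <;> norm_num

theorem ze_one {z w : V} (h : w ∈ Zf adj z) : ze adj z w = 1 := by
  classical
  exact if_pos h

theorem ze_zero {z w : V} (h : w ∉ Zf adj z) : ze adj z w = 0 := by
  classical
  exact if_neg h

/-- the key non-adjacency -/
theorem nonadj (has : ∀ x y, adj x y → ¬ adj y x) {v z c y : V} (hz : z ∈ Zf adj v)
    (hc : c ∈ Cf adj v) (hy : y ∈ Zf adj z) (hcy : adj c y) : H adj z c = 1 := by
  have h1 : ¬ adj c z := (mem_Zf.1 hz).2.2 c (mem_Cf.1 hc)
  have h2 : ¬ adj z c := fun h => (mem_Zf.1 hy).2.2 c h hcy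
  have h3 : c ≠ z := by
    intro h
    subst h
    exact (mem_Zf.1 hz).2.1 (mem_Cf.1 hc)
  exact H_one h3 h2 h1

theorem nonadjC {v z y : V} (hz : z ∈ Zf adj v) (hyC : y ∈ Cf adj v) (hy : y ∈ Zf adj z) :
    H adj z y = 1 :=
  H_one (mem_Zf.1 hy).1 (mem_Zf.1 hy).2.1 ((mem_Zf.1 hz).2.2 y (mem_Cf.1 hyC))

/-- the three parts of the set of the vertices not reached from `z` -/
theorem Ctx.three {m : ℝ} {v : V} (K : Ctx adj m v) (z : V) :
    ∑ y, H adj z y - m / 100 - 1 ≤ ∑ y ∈ Cf adj v, ze adj z y + ∑ y ∈ Nf adj v, ze adj z y +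
      ∑ y ∈ Zf adj v, ze adj z y := by
  classical
  have h1 := K.hns z
  have h2 : ((Zf adj z).card : ℝ) = ∑ y, ze adj z y := by
    unfold ze
    rw [Finset.sum_boole, Finset.filter_mem_eq_inter, Finset.univ_inter]
  rw [h2, part K.has v fun y => ze adj z y] at h1
  have h3 := ze_le (adj := adj) z v
  linarith

/-- fact 3: at most one `z` has a large part in the out-neighbourhood -/
theorem Ctx.Ysmall {m : ℝ} {v : V} (K : Ctx adj m v) :
    ∃ Z1 : Finset V, Z1 ⊆ Zf adj v ∧ ((Zf adj v).card : ℝ) - 1 ≤ Z1.card ∧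
      ∀ z ∈ Z1, ∑ y ∈ Cf adj v, ze adj z y ≤ m / 1000 := by
  classical
  have hm := K.hm
  set Z1 : Finset V := (Zf adj v).filter fun z => ∑ y ∈ Cf adj v, ze adj z y ≤ m / 1000 with hZ1
  refine ⟨Z1, Finset.filter_subset _ _, ?_, fun z hz => (Finset.mem_filter.1 hz).2⟩
  have hcard : ((Zf adj v).filter fun z => ¬ ∑ y ∈ Cf adj v, ze adj z y ≤ m / 1000).card ≤ 1 := by
    rw [Finset.card_le_one]
    intro z hz z' hz'
    by_contra hne
    obtain ⟨hzZ, hz2⟩ := Finset.mem_filter.1 hz
    obtain ⟨hzZ', hz2'⟩ := Finset.mem_filter.1 hz'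
    push Not at hz2 hz2'
    have hco := K.hco z z' hne
    -- sums over C of ze with H z' y = 0
    have hsplit : ∀ a b : V, a ∈ Zf adj v → ∑ y ∈ Cf adj v, ze adj a y ≤
        ∑ y ∈ Cf adj v, ze adj a y * (1 - H adj b y) + ∑ y, H adj a y * H adj b y := by
      intro a b ha
      have h1 : ∑ y ∈ Cf adj v, ze adj a y = ∑ y ∈ Cf adj v, ze adj a y * (1 - H adj b y) +
          ∑ y ∈ Cf adj v, ze adj a y * H adj b y := by
        rw [← Finset.sum_add_distrib]
        apply Finset.sum_congr rfl
        intro y _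
        ring
      rw [h1]
      have h2 : ∑ y ∈ Cf adj v, ze adj a y * H adj b y ≤ ∑ y, H adj a y * H adj b y := by
        refine le_trans ?_ (Finset.sum_le_sum_of_subset_of_nonneg
          (Finset.subset_univ (Cf adj v)) fun y _ _ => mul_nonneg (H0 a y) (H0 b y))
        apply Finset.sum_le_sum
        intro y hy
        by_cases h : y ∈ Zf adj a
        · rw [ze_one h, nonadjC ha hy h]
        · rw [ze_zero h, zero_mul]
          exact mul_nonneg (H0 a y) (H0 b y)
      linarith
    have hs1 := hsplit z z' hzZ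
    have hs2 := hsplit z' z hzZ'
    have hco' : ∑ y, H adj z' y * H adj z y ≤ m / 5000000 := by
      refine le_trans (le_of_eq ?_) hco
      apply Finset.sum_congr rfl
      intro y _
      ring
    -- the set Y1
    set Y1 : Finset V := (Cf adj v).filter fun y => y ∈ Zf adj z ∧ H adj z' y = 0 with hY1
    set Y2 : Finset V := (Cf adj v).filter fun y => y ∈ Zf adj z' ∧ H adj z y = 0 with hY2
    have hc1 : ∑ y ∈ Cf adj v, ze adj z y * (1 - H adj z' y) = Y1.card := by
      rw [hY1, Finset.card_filter, Nat.cast_sum]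
      apply Finset.sum_congr rfl
      intro y _
      by_cases h : y ∈ Zf adj z
      · rcases H01 (adj := adj) z' y with h3 | h3
        · rw [ze_one h, h3, if_pos ⟨h, rfl⟩]
          norm_num
        · rw [ze_one h, h3, if_neg fun h4 => one_ne_zero h4.2]
          norm_num
      · rw [ze_zero h, if_neg fun h4 => h h4.1]
        norm_num
    have hc2 : ∑ y ∈ Cf adj v, ze adj z' y * (1 - H adj z y) = Y2.card := by
      rw [hY2, Finset.card_filter, Nat.cast_sum]
      apply Finset.sum_congr rfl
      intro y _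
      by_cases h : y ∈ Zf adj z'
      · rcases H01 (adj := adj) z y with h3 | h3
        · rw [ze_one h, h3, if_pos ⟨h, rfl⟩]
          norm_num
        · rw [ze_one h, h3, if_neg fun h4 => one_ne_zero h4.2]
          norm_num
      · rw [ze_zero h, if_neg fun h4 => h h4.1]
        norm_num
    have hl1 : 1 < (Y1.card : ℝ) := by
      rw [← hc1]
      linarith
    have hl2 : m / 5000000 < (Y2.card : ℝ) := by
      rw [← hc2]
      linarith
    obtain ⟨y1, hy1, y2, hy2, hyne⟩ : ∃ y1 ∈ Y1, ∃ y2 ∈ Y1, y1 ≠ y2 := by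
      have : 1 < Y1.card := by exact_mod_cast hl1
      exact Finset.one_lt_card.1 this
    have hall : ∀ y ∈ Y1, ∀ y' ∈ Y2, H adj y y' = 1 := by
      intro y hy y' hy'
      obtain ⟨hyC, hyz, hyH⟩ := Finset.mem_filter.1 hy
      obtain ⟨hyC', hyz', hyH'⟩ := Finset.mem_filter.1 hy'
      apply H_one
      · intro h
        subst h
        have := nonadjC hzZ' hyC' hyz'
        rw [hyH] at this
        exact zero_ne_one this
      · intro h
        have := nonadj K.has hzZ' hyC hyz' h
        rw [hyH] at this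
        exact zero_ne_one this
      · intro h
        have := nonadj K.has hzZ hyC' hyz h
        rw [hyH'] at this
        exact zero_ne_one this
    have h5 := K.hco y1 y2 hyne
    have h6 : (Y2.card : ℝ) ≤ ∑ y, H adj y1 y * H adj y2 y := by
      rw [← sum_one Y2]
      refine le_trans ?_ (Finset.sum_le_sum_of_subset_of_nonneg (Finset.subset_univ Y2)
        fun y _ _ => mul_nonneg (H0 y1 y) (H0 y2 y))
      apply Finset.sum_le_sum
      intro y hy
      rw [hall y1 hy1 y hy, hall y2 hy2 y hy, mul_one]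
    linarith
  have h1 := Finset.card_filter_add_card_filter_not (s := Zf adj v)
    (fun z => ∑ y ∈ Cf adj v, ze adj z y ≤ m / 1000)
  have h2 : ((Zf adj v).card : ℝ) = Z1.card +
      ((Zf adj v).filter fun z => ¬ ∑ y ∈ Cf adj v, ze adj z y ≤ m / 1000).card := by
    rw [hZ1]
    exact_mod_cast h1.symm
  have h3 : (((Zf adj v).filter fun z => ¬ ∑ y ∈ Cf adj v, ze adj z y ≤ m / 1000).card : ℝ) ≤
      1 := by exact_mod_cast hcard
  linarith

end

end Pool.Agent.SulR
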