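import Pool.Agent.SulR.C

/-!
MP_109285_co, oriented graphs with nearly regular sparse non-adjacency graph, module D.
-/

namespace Pool.Agent.SulR

open Finset

variable {V : Type*} [Fintype V]

section

variable {adj : V → V → Prop}

/-- fact 5 -/
theorem Ctx.Qle {m : ℝ} {v : V} (K : Ctx adj m v) {z : V} (hz : z ∈ Zf adj v) (Q : Finset V)
    (hQ : ∀ y ∈ Q, y ∈ Zf adj v ∧ y ∈ Zf adj z) (F : ℝ) (hF : 0 ≤ F)
    (hA : ∀ y ∈ Q, A adj v y ≤ A adj v z + F) : (Q.card : ℝ) ≤ 2 * F + m / 200 := by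
  classical
  have hm := K.hm
  have hm0 := K.m0
  set NB : Finset V := (Bf adj v).filter fun b => adj z b with hNB
  have hNBc : (NB.card : ℝ) = A adj v z := by
    rw [hNB]
    unfold A O
    rw [Finset.sum_boole]
  have hmv := K.hup v
  have hNB2 : (NB.card : ℝ) ≤ 2 * m := by
    have h1 := K.A_le hz
    have h2 := hS0 (adj := adj) z (Bf adj v)
    rw [hNBc]
    linarith
  have hQ2 : (Q.card : ℝ) ≤ 2 * m := by
    have h1 : Q ⊆ Zf adj v := fun y hy => (hQ y hy).1
    have h2 : (Q.card : ℝ) ≤ (Zf adj v).card := by exact_mod_cast Finset.card_le_card h1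
    have h3 := K.s_le
    linarith
  have hout : ∀ z' ∈ Q, ∑ y ∈ Q, O adj z' y ≤ F + hS adj z' NB := by
    intro z' hz'
    have h1 : ∑ b ∈ NB, O adj z' b = NB.card - hS adj z' NB := by
      have h2 : ∑ b ∈ NB, (O adj z' b + H adj z' b) = NB.card := by
        rw [← sum_one NB]
        apply Finset.sum_congr rfl
        intro b hb
        have hzb : adj z b := (Finset.mem_filter.1 hb).2
        have h3 : ¬ adj b z' := (mem_Zf.1 (hQ z' hz').2).2.2 b hzb
        have h4 : z' ≠ b := by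
          intro h
          subst h
          exact (mem_Zf.1 (hQ z' hz').2).2.1 hzb
        have h5 := ident K.has z' b
        have h6 : Dg z' b = 0 := by
          unfold Dg
          exact if_neg h4
        rw [O_zero h3, h6] at h5
        linarith
      rw [Finset.sum_add_distrib] at h2
      unfold hS
      linarith
    have h2 : ∑ y ∈ Q, O adj z' y ≤ ∑ b ∈ Bf adj v \ NB, O adj z' b := by
      apply Finset.sum_le_sum_of_subset_of_nonneg
      · intro y hy
        rw [Finset.mem_sdiff]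
        refine ⟨mem_B.2 (Or.inr (hQ y hy).1), ?_⟩
        intro h
        exact (mem_Zf.1 (hQ y hy).2).2.1 (Finset.mem_filter.1 h).2
      · intro y _ _
        exact O0 z' y
    have h3 : ∑ b ∈ Bf adj v \ NB, O adj z' b + ∑ b ∈ NB, O adj z' b = A adj v z' :=
      Finset.sum_sdiff (Finset.filter_subset _ _)
    have h4 := hA z' hz'
    linarith
  have hsum := Finset.sum_le_sum hout
  rw [Finset.sum_add_distrib, Finset.sum_const, nsmul_eq_mul] at hsum
  have h1 := sum_hS m hm K.hup K.hco NB hNB2 Q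
  have h2 := sum_hS m hm K.hup K.hco Q hQ2 Q
  have h3 := sq_set K.has Q
  set u : ℝ := (Q.card : ℝ) with hu
  by_contra hcon
  push Not at hcon
  have h4 : u ^ 2 ≤ (2 * F + 3 * (m / 1000) + 1) * u + 12000 * m := by nlinarith
  have h5 : m / 1000 ≤ u - (2 * F + 3 * (m / 1000) + 1) := by linarith
  have h6 : m / 200 ≤ u := by linarith
  have h7 : m / 1000 * (m / 200) ≤ (u - (2 * F + 3 * (m / 1000) + 1)) * u :=
    mul_le_mul h5 h6 (by positivity) (by linarith [div_pos hm0 (by norm_num : (0 : ℝ) < 1000)])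
  have h8 : 12000 * m < m / 1000 * (m / 200) := by nlinarith
  nlinarith

/-- out-neighbours of `v` with a large non-degree into `Z`, and the vertices dominated only by
these -/
noncomputable def W1 (adj : V → V → Prop) (m : ℝ) (v : V) : Finset V := by
  classical
  exact (Nf adj v).filter fun w => ∀ y ∈ Cf adj v, adj y w → m / 1000 ≤ hS adj y (Zf adj v)

/-- vertices of the second out-neighbourhood with small indegree from the first -/
noncomputable def W2 (adj : V → V → Prop) (m : ℝ) (v : V) : Finset V := by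
  classical
  exact (Nf adj v).filter fun w => ∑ y ∈ Cf adj v, O adj y w ≤ m

theorem mem_W1 {m : ℝ} {v w : V} : w ∈ W1 adj m v ↔
    w ∈ Nf adj v ∧ ∀ y ∈ Cf adj v, adj y w → m / 1000 ≤ hS adj y (Zf adj v) := by
  classical
  unfold W1
  exact Finset.mem_filter

theorem mem_W2 {m : ℝ} {v w : V} : w ∈ W2 adj m v ↔
    w ∈ Nf adj v ∧ ∑ y ∈ Cf adj v, O adj y w ≤ m := by
  classical
  unfold W2
  exact Finset.mem_filter

theorem Ctx.s2 {m : ℝ} {v : V} (K : Ctx adj m v) : ((Zf adj v).card : ℝ) ≤ 2 * m := by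
  have h1 := K.s_le
  have h2 := K.hup v
  linarith

theorem Ctx.W1ta {m : ℝ} {v : V} (K : Ctx adj m v) :
    ∀ w ∈ W1 adj m v, ∑ y ∈ Cf adj v, O adj y w ≤ 4000 := by
  classical
  intro w hw
  have h1 := few_large m K.hm K.hco (Zf adj v) K.s2
    ((Cf adj v).filter fun y => m / 1000 ≤ hS adj y (Zf adj v))
    (fun y hy => (Finset.mem_filter.1 hy).2)
  refine le_trans ?_ h1
  rw [← sum_one ((Cf adj v).filter fun y => m / 1000 ≤ hS adj y (Zf adj v)), Finset.sum_filter]
  apply Finset.sum_le_sum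
  intro y hy
  by_cases h : adj y w
  · rw [O_one h, if_pos ((mem_W1.1 hw).2 y hy h)]
  · rw [O_zero h]
    split_ifs <;> norm_num

theorem Ctx.W1sub {m : ℝ} {v : V} (K : Ctx adj m v) : W1 adj m v ⊆ W2 adj m v := by
  intro w hw
  have h1 := K.W1ta w hw
  have h2 := K.hm
  exact mem_W2.2 ⟨(mem_W1.1 hw).1, by linarith⟩

theorem Ctx.eZN {m : ℝ} {v : V} (K : Ctx adj m v) :
    ∑ z ∈ Zf adj v, ∑ w ∈ Nf adj v, O adj z w ≤ 2 * m ^ 2 := by
  have h1 : ∑ z ∈ Zf adj v, ∑ w ∈ Nf adj v, O adj z w ≤ ∑ _z ∈ Zf adj v, m := by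
    apply Finset.sum_le_sum
    intro z hz
    have h2 := K.A_le hz
    have h3 := K.hup v
    have h4 := hS0 (adj := adj) z (Bf adj v)
    have h5 : A adj v z = ∑ w ∈ Nf adj v, O adj z w + ∑ w ∈ Zf adj v, O adj z w := by
      unfold A
      exact sum_B v _
    have h6 : 0 ≤ ∑ w ∈ Zf adj v, O adj z w := Finset.sum_nonneg fun w _ => O0 z w
    linarith
  refine h1.trans ?_
  rw [Finset.sum_const, nsmul_eq_mul]
  have h2 := K.s2
  have h3 := K.m0
  nlinarith

theorem Ctx.W2card {m : ℝ} {v : V} (K : Ctx adj m v) : ((W2 adj m v).card : ℝ) ≤ 4 * m := by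
  have hsub : W2 adj m v ⊆ Nf adj v := fun w hw => (mem_W2.1 hw).1
  have h1 := K.eZW hsub m (fun w hw => (mem_W2.1 hw).2)
  have h2 : ∑ z ∈ Zf adj v, ∑ w ∈ W2 adj m v, O adj z w ≤
      ∑ z ∈ Zf adj v, ∑ w ∈ Nf adj v, O adj z w :=
    Finset.sum_le_sum fun z _ =>
      Finset.sum_le_sum_of_subset_of_nonneg hsub fun w _ _ => O0 z w
  have h3 := K.eZN
  have h4 := K.hns v
  have hm0 := K.m0
  by_contra hcon
  push Not at hcon
  set r : ℝ := ((W2 adj m v).card : ℝ) with hr
  have h5 : r * (r / 2 - m - m / 100) ≤ r * ((Zf adj v).card - ∑ y, H adj v y + r / 2 - m) :=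
    mul_le_mul_of_nonneg_left (by linarith) (by linarith)
  nlinarith

/-- fact 4 -/
theorem Ctx.Xsum {m : ℝ} {v : V} (K : Ctx adj m v) :
    ∑ z ∈ Zf adj v, ∑ w ∈ Nf adj v, ze adj z w ≤
      (Zf adj v).card * (W1 adj m v).card - ∑ z ∈ Zf adj v, ∑ w ∈ W1 adj m v, O adj z w +
        4 * m * (m / 1000) := by
  classical
  have hm0 := K.m0
  have hsub : W2 adj m v ⊆ Nf adj v := fun w hw => (mem_W2.1 hw).1
  have h1 : ∀ z ∈ Zf adj v, ∑ w ∈ Nf adj v, ze adj z w =
      ∑ w ∈ W1 adj m v, ze adj z w + ∑ w ∈ W2 adj m v \ W1 adj m v, ze adj z w := by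
    intro z hz
    rw [add_comm, Finset.sum_sdiff K.W1sub]
    symm
    apply Finset.sum_subset hsub
    intro w hw hw2
    apply ze_zero
    intro hwz
    apply hw2
    rw [mem_W2]
    refine ⟨hw, ?_⟩
    refine le_trans ?_ (K.hup z)
    refine le_trans ?_ (Finset.sum_le_sum_of_subset_of_nonneg (Finset.subset_univ (Cf adj v))
      fun y _ _ => H0 z y)
    apply Finset.sum_le_sum
    intro y hy
    by_cases h : adj y w
    · rw [O_one h, nonadj K.has hz hy hwz h]
    · rw [O_zero h]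
      exact H0 z y
  rw [Finset.sum_congr rfl h1, Finset.sum_add_distrib]
  have h2 : ∑ z ∈ Zf adj v, ∑ w ∈ W1 adj m v, ze adj z w ≤
      (Zf adj v).card * (W1 adj m v).card - ∑ z ∈ Zf adj v, ∑ w ∈ W1 adj m v, O adj z w := by
    have h3 : ∀ z ∈ Zf adj v, ∑ w ∈ W1 adj m v, ze adj z w ≤
        (W1 adj m v).card - ∑ w ∈ W1 adj m v, O adj z w := by
      intro z _
      rw [← sum_one (W1 adj m v), ← Finset.sum_sub_distrib]
      apply Finset.sum_le_sum
      intro w _
      by_cases h : w ∈ Zf adj z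
      · rw [ze_one h, O_zero (mem_Zf.1 h).2.1]
        norm_num
      · rw [ze_zero h]
        rcases O01 (adj := adj) z w with h | h <;> rw [h] <;> norm_num
    refine (Finset.sum_le_sum h3).trans (le_of_eq ?_)
    rw [Finset.sum_sub_distrib, Finset.sum_const, nsmul_eq_mul]
  have h3 : ∑ z ∈ Zf adj v, ∑ w ∈ W2 adj m v \ W1 adj m v, ze adj z w ≤
      4 * m * (m / 1000) := by
    rw [Finset.sum_comm]
    have h4 : ∀ w ∈ W2 adj m v \ W1 adj m v, ∑ z ∈ Zf adj v, ze adj z w ≤ m / 1000 := by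
      intro w hw
      rw [Finset.mem_sdiff] at hw
      have h5 : ∃ y ∈ Cf adj v, adj y w ∧ hS adj y (Zf adj v) < m / 1000 := by
        by_contra hno
        push Not at hno
        exact hw.2 (mem_W1.2 ⟨(mem_W2.1 hw.1).1, fun y hy hyw => hno y hy hyw⟩)
      obtain ⟨y, hy, hyw, hyS⟩ := h5
      refine le_trans ?_ hyS.le
      unfold hS
      apply Finset.sum_le_sum
      intro z hz
      by_cases h : w ∈ Zf adj z
      · rw [ze_one h, Hsymm, nonadj K.has hz hy h hyw]
      · rw [ze_zero h]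
        exact H0 y z
    refine (Finset.sum_le_sum h4).trans ?_
    rw [Finset.sum_const, nsmul_eq_mul]
    apply mul_le_mul_of_nonneg_right _ (by positivity)
    have h5 := K.W2card
    have h6 : ((W2 adj m v \ W1 adj m v).card : ℝ) ≤ (W2 adj m v).card := by
      exact_mod_cast Finset.card_le_card Finset.sdiff_subset
    linarith
  linarith

end

end Pool.Agent.SulR
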