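import Pool.Agent.SulR.D

/-!
MP_109285_co, oriented graphs with nearly regular sparse non-adjacency graph, module E.
-/

namespace Pool.Agent.SulR

open Finset

theorem top_exists {α : Type*} [DecidableEq α] (S : Finset α) (f : α → ℝ) (j : ℕ)
    (hj : j ≤ S.card) :
    ∃ T ⊆ S, T.card = j ∧ ∀ z ∈ T, ∀ z' ∈ S \ T, f z' ≤ f z := by
  induction j with
  | zero =>
    exact ⟨∅, Finset.empty_subset S, Finset.card_empty, fun z hz => absurd hz (Finset.notMem_empty z)⟩
  | succ j ih =>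
    obtain ⟨T, hTS, hTc, hT⟩ := ih (by omega)
    have hne : (S \ T).Nonempty := by
      rw [← Finset.card_pos, Finset.card_sdiff_of_subset hTS]
      omega
    obtain ⟨x, hx, hxmax⟩ := Finset.exists_max_image (S \ T) f hne
    have hxS := (Finset.mem_sdiff.1 hx).1
    have hxT := (Finset.mem_sdiff.1 hx).2
    refine ⟨insert x T, Finset.insert_subset hxS hTS, ?_, ?_⟩
    · rw [Finset.card_insert_of_notMem hxT, hTc]
    · intro z hz z' hz'
      have hz'S := (Finset.mem_sdiff.1 hz').1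
      have hz'T : z' ∉ T := fun h => (Finset.mem_sdiff.1 hz').2 (Finset.mem_insert_of_mem h)
      have hz'2 : z' ∈ S \ T := Finset.mem_sdiff.2 ⟨hz'S, hz'T⟩
      rcases Finset.mem_insert.1 hz with h | h
      · rw [h]
        exact hxmax z' hz'2
      · exact hT z h z' hz'2

variable {V : Type*} [Fintype V]

section

variable {adj : V → V → Prop}

/-- the vertices of `Z` not reached from `z`, general bound -/
theorem Ctx.Ule {m : ℝ} {v : V} (K : Ctx adj m v) {z : V} (hz : z ∈ Zf adj v) :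
    ∑ y ∈ Zf adj v, ze adj z y ≤ 2 * (∑ y, H adj v y - 1 - A adj v z) + m / 200 := by
  classical
  have h1 := K.A_le hz
  have h2 := hS0 (adj := adj) z (Bf adj v)
  have h3 := K.Qle hz ((Zf adj v).filter fun y => y ∈ Zf adj z)
    (fun y hy => ⟨(Finset.mem_filter.1 hy).1, (Finset.mem_filter.1 hy).2⟩)
    (∑ y, H adj v y - 1 - A adj v z) (by linarith) (by
      intro y hy
      have h4 := K.A_le (Finset.mem_filter.1 hy).1
      have h5 := hS0 (adj := adj) y (Bf adj v)
      linarith)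
  refine le_trans (le_of_eq ?_) h3
  unfold ze
  rw [Finset.sum_boole]

/-- the order argument -/
theorem Ctx.Utop {m : ℝ} {v : V} (K : Ctx adj m v) (T : Finset V) (hT : T ⊆ Zf adj v)
    (htop : ∀ z ∈ T, ∀ z' ∈ Zf adj v, z' ∉ T → A adj v z' ≤ A adj v z) :
    ∑ z ∈ T, ∑ y ∈ Zf adj v, ze adj z y ≤ T.card * (m / 200) + (T.card : ℝ) ^ 2 / 2 := by
  classical
  have h1 : ∀ z ∈ T, ∑ y ∈ Zf adj v, ze adj z y ≤ m / 200 +
      ∑ y ∈ T, (if A adj v z < A adj v y then (1 : ℝ) else 0) := by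
    intro z hz
    have h2 := K.Qle (hT hz) ((Zf adj v).filter fun y => y ∈ Zf adj z ∧ A adj v y ≤ A adj v z)
      (fun y hy => ⟨(Finset.mem_filter.1 hy).1, (Finset.mem_filter.1 hy).2.1⟩) 0 (le_refl _) (by
        intro y hy
        rw [add_zero]
        exact (Finset.mem_filter.1 hy).2.2)
    have h3 : ∑ y ∈ Zf adj v, ze adj z y ≤
        ∑ y ∈ Zf adj v, (if y ∈ Zf adj z ∧ A adj v y ≤ A adj v z then (1 : ℝ) else 0) +
        ∑ y ∈ Zf adj v, (if y ∈ T ∧ A adj v z < A adj v y then (1 : ℝ) else 0) := by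
      rw [← Finset.sum_add_distrib]
      apply Finset.sum_le_sum
      intro y hy
      by_cases h : y ∈ Zf adj z
      · rw [ze_one h]
        by_cases h4 : A adj v y ≤ A adj v z
        · rw [if_pos ⟨h, h4⟩]
          split_ifs <;> norm_num
        · have h5 : y ∈ T := by
            by_contra h6
            exact h4 (htop z hz y hy h6)
          push Not at h4
          rw [if_pos (⟨h5, h4⟩ : y ∈ T ∧ A adj v z < A adj v y)]
          split_ifs <;> norm_num
      · rw [ze_zero h]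
        split_ifs <;> norm_num
    have h4 : ∑ y ∈ Zf adj v, (if y ∈ Zf adj z ∧ A adj v y ≤ A adj v z then (1 : ℝ) else 0) ≤
        m / 200 := by
      rw [Finset.sum_boole]
      linarith
    have h5 : ∑ y ∈ Zf adj v, (if y ∈ T ∧ A adj v z < A adj v y then (1 : ℝ) else 0) =
        ∑ y ∈ T, (if A adj v z < A adj v y then (1 : ℝ) else 0) := by
      rw [← Finset.sum_subset hT]
      · apply Finset.sum_congr rfl
        intro y hy
        simp only [hy, true_and]
      · intro y _ hy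
        exact if_neg fun h => hy h.1
    linarith
  refine (Finset.sum_le_sum h1).trans ?_
  rw [Finset.sum_add_distrib, Finset.sum_const, nsmul_eq_mul]
  have h2 : ∑ z ∈ T, ∑ y ∈ T, (if A adj v z < A adj v y then (1 : ℝ) else 0) ≤
      (T.card : ℝ) ^ 2 / 2 := by
    have h3 : ∑ z ∈ T, ∑ y ∈ T, (if A adj v z < A adj v y then (1 : ℝ) else 0) =
        ∑ z ∈ T, ∑ y ∈ T, (if A adj v y < A adj v z then (1 : ℝ) else 0) := Finset.sum_comm
    have h4 : ∑ z ∈ T, ∑ y ∈ T, (if A adj v z < A adj v y then (1 : ℝ) else 0) +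
        ∑ z ∈ T, ∑ y ∈ T, (if A adj v y < A adj v z then (1 : ℝ) else 0) ≤
        ∑ _z ∈ T, ∑ _y ∈ T, (1 : ℝ) := by
      rw [← Finset.sum_add_distrib]
      apply Finset.sum_le_sum
      intro z _
      rw [← Finset.sum_add_distrib]
      apply Finset.sum_le_sum
      intro y _
      by_cases h5 : A adj v z < A adj v y
      · rw [if_pos h5, if_neg (not_lt.2 h5.le)]
        norm_num
      · rw [if_neg h5]
        split_ifs <;> norm_num
    rw [← h3, sum_one, Finset.sum_const, nsmul_eq_mul] at h4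
    rw [sq]
    linarith
  linarith

/-- the sum of the outdegrees -/
theorem Ctx.Asum {m : ℝ} {v : V} (K : Ctx adj m v) :
    ∑ z ∈ Zf adj v, ∑ w ∈ W1 adj m v, O adj z w +
      (((Zf adj v).card : ℝ) ^ 2 - (Zf adj v).card -
        (m / 1000 * (Zf adj v).card + 4000 * m)) / 2 ≤ ∑ z ∈ Zf adj v, A adj v z := by
  have h1 : ∑ z ∈ Zf adj v, A adj v z = ∑ z ∈ Zf adj v, ∑ w ∈ Nf adj v, O adj z w +
      ∑ z ∈ Zf adj v, ∑ w ∈ Zf adj v, O adj z w := by
    rw [← Finset.sum_add_distrib]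
    apply Finset.sum_congr rfl
    intro z _
    unfold A
    exact sum_B v _
  have h2 : ∑ z ∈ Zf adj v, ∑ w ∈ W1 adj m v, O adj z w ≤
      ∑ z ∈ Zf adj v, ∑ w ∈ Nf adj v, O adj z w :=
    Finset.sum_le_sum fun z _ =>
      Finset.sum_le_sum_of_subset_of_nonneg (fun w hw => (mem_W1.1 hw).1) fun w _ _ => O0 z w
  have h3 := sq_set K.has (Zf adj v)
  have h4 := sum_hS m K.hm K.hup K.hco (Zf adj v) K.s2 (Zf adj v)
  linarith

/-- the final contradiction in numbers -/
theorem numbers (m s r j t X F e : ℝ) (hm : 10 ^ 10 ≤ m) (hj0 : (1 - 1 / 1000) * m ≤ j)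
    (hj1 : j ≤ m) (hs0 : j - m / 100 ≤ s) (hs1 : s ≤ 2 * m) (ht0 : 989 / 1000 * m ≤ t)
    (ht1 : t ≤ m) (hr0 : 0 ≤ r) (hr1 : r ≤ 4 * m)
    (he : r * (s - j + r / 2 - 4000) ≤ e) (hX : X ≤ s * r - e + 4 * m * (m / 1000))
    (hf : (t - 1) * (987 / 1000 * m) ≤ X + (t * (m / 200) + t ^ 2 / 2))
    (hg : (s - 1) * (987 / 1000 * m) ≤ X + (2 * F + s * (m / 200)))
    (hh : F ≤ s * (j - 1) - (e + (s ^ 2 - s - (m / 1000 * s + 4000 * m)) / 2)) : False := by
  have hm0 : 0 < m := by linarith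
  have hmm : 16000 * m ≤ m ^ 2 / 10000 := by nlinarith
  have hX2 : X ≤ r * (m - r / 2) + 41 / 10000 * m ^ 2 := by
    have h1 : r * j ≤ r * m := mul_le_mul_of_nonneg_left hj1 hr0
    nlinarith
  have hXlow : 4815 / 10000 * m ^ 2 ≤ X := by
    have h1 : 0 ≤ (t - 989 / 1000 * m) * (m - t) :=
      mul_nonneg (by linarith) (by linarith)
    nlinarith
  have hsq : (m - r) ^ 2 ≤ 452 / 10000 * m ^ 2 := by nlinarith
  have hr2 : 787 / 1000 * m ≤ r := by
    by_contra h
    push Not at h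
    have h1 : 213 / 1000 * m < m - r := by linarith
    have h2 : (213 / 1000 * m) ^ 2 < (m - r) ^ 2 := by
      apply pow_lt_pow_left₀ h1 (by positivity) (by norm_num)
    nlinarith
  have hF : F ≤ (m ^ 2 - (s + r - m) ^ 2) / 2 + 11 / 10000 * m ^ 2 := by
    have h1 : j * (s + r) ≤ m * (s + r) :=
      mul_le_mul_of_nonneg_right hj1 (by linarith)
    have h2 : 4000 * r ≤ 16000 * m := by linarith
    have h3 : m / 1000 * s ≤ m / 1000 * (2 * m) := mul_le_mul_of_nonneg_left hs1 (by positivity)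
    nlinarith
  have h5 : 776 / 1000 * m ≤ s + r - m := by linarith
  have h6 : (776 / 1000 * m) ^ 2 ≤ (s + r - m) ^ 2 := pow_le_pow_left₀ (by positivity) h5 2
  have h7 : 988 / 1000 * m * (987 / 1000 * m) ≤ (s - 1) * (987 / 1000 * m) :=
    mul_le_mul_of_nonneg_right (by linarith) (by positivity)
  have h8 : s * (m / 200) ≤ 2 * m * (m / 200) := mul_le_mul_of_nonneg_right hs1 (by positivity)
  have h9 : r * (m - r / 2) ≤ m ^ 2 / 2 := by nlinarith [sq_nonneg (m - r)]
  nlinarith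

/-- the situation is impossible -/
theorem Ctx.false {m : ℝ} {v : V} (K : Ctx adj m v) : False := by
  classical
  have hm := K.hm
  have hm0 := K.m0
  -- the number of non-neighbours of v as a natural number
  obtain ⟨j, hj⟩ : ∃ j : ℕ, (j : ℝ) = ∑ y, H adj v y := by
    refine ⟨(Finset.univ.filter fun y => y ≠ v ∧ ¬ adj v y ∧ ¬ adj y v).card, ?_⟩
    unfold H
    rw [Finset.sum_boole]
  obtain ⟨t, ht⟩ : ∃ t : ℕ, t = min j (Zf adj v).card := ⟨_, rfl⟩
  have htj : (t : ℝ) ≤ j := by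
    rw [ht]
    exact_mod_cast min_le_left j (Zf adj v).card
  have hts : t ≤ (Zf adj v).card := by
    rw [ht]
    exact min_le_right j (Zf adj v).card
  have ht0 : 989 / 1000 * m ≤ (t : ℝ) := by
    have h1 := K.hns v
    have h2 := K.hlo v
    rw [← hj] at h1 h2
    rw [ht, Nat.cast_min]
    exact le_min (by linarith) (by linarith)
  obtain ⟨T, hTZ, hTc, hTtop⟩ := top_exists (Zf adj v) (fun z => A adj v z) t hts
  obtain ⟨Z1, hZ1Z, hZ1c, hZ1⟩ := K.Ysmall
  set s : ℝ := ((Zf adj v).card : ℝ) with hs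
  set r : ℝ := ((W1 adj m v).card : ℝ) with hr
  set e : ℝ := ∑ z ∈ Zf adj v, ∑ w ∈ W1 adj m v, O adj z w with he
  set X : ℝ := ∑ z ∈ Zf adj v, ∑ w ∈ Nf adj v, ze adj z w with hX
  set F : ℝ := ∑ z ∈ Zf adj v, (∑ y, H adj v y - 1 - A adj v z) with hF
  have hXn : ∀ z, 0 ≤ ∑ w ∈ Nf adj v, ze adj z w := fun z =>
    Finset.sum_nonneg fun w _ => ze0 z w
  have hUn : ∀ z, 0 ≤ ∑ w ∈ Zf adj v, ze adj z w := fun z =>
    Finset.sum_nonneg fun w _ => ze0 z w
  have hpt : ∀ z ∈ Z1, 987 / 1000 * m ≤ ∑ w ∈ Nf adj v, ze adj z w +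
      ∑ w ∈ Zf adj v, ze adj z w := by
    intro z hz
    have h1 := K.three z
    have h2 := hZ1 z hz
    have h3 := K.hlo z
    linarith
  have hg : (s - 1) * (987 / 1000 * m) ≤ X + (2 * F + s * (m / 200)) := by
    have h1 : (s - 1) * (987 / 1000 * m) ≤ Z1.card * (987 / 1000 * m) :=
      mul_le_mul_of_nonneg_right hZ1c (by positivity)
    have h2 : (Z1.card : ℝ) * (987 / 1000 * m) ≤ ∑ z ∈ Z1, (∑ w ∈ Nf adj v, ze adj z w +
        ∑ w ∈ Zf adj v, ze adj z w) := by
      rw [← nsmul_eq_mul]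
      exact Finset.card_nsmul_le_sum Z1 _ _ hpt
    have h3 : ∑ z ∈ Z1, (∑ w ∈ Nf adj v, ze adj z w + ∑ w ∈ Zf adj v, ze adj z w) ≤
        ∑ z ∈ Zf adj v, (∑ w ∈ Nf adj v, ze adj z w + ∑ w ∈ Zf adj v, ze adj z w) :=
      Finset.sum_le_sum_of_subset_of_nonneg hZ1Z fun z _ _ => add_nonneg (hXn z) (hUn z)
    have h4 : ∑ z ∈ Zf adj v, ∑ w ∈ Zf adj v, ze adj z w ≤
        ∑ z ∈ Zf adj v, (2 * (∑ y, H adj v y - 1 - A adj v z) + m / 200) :=
      Finset.sum_le_sum fun z hz => K.Ule hz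
    rw [Finset.sum_add_distrib, ← Finset.mul_sum, Finset.sum_const, nsmul_eq_mul] at h4
    rw [Finset.sum_add_distrib, Finset.sum_add_distrib] at h3
    rw [Finset.sum_add_distrib] at h2
    linarith
  have hf : ((t : ℝ) - 1) * (987 / 1000 * m) ≤ X + (t * (m / 200) + (t : ℝ) ^ 2 / 2) := by
    have h0 : (t : ℝ) - 1 ≤ (T ∩ Z1).card := by
      have h1 : (T ∪ Z1).card + (T ∩ Z1).card = T.card + Z1.card :=
        Finset.card_union_add_card_inter T Z1
      have h2 : (T ∪ Z1).card ≤ (Zf adj v).card :=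
        Finset.card_le_card (Finset.union_subset hTZ hZ1Z)
      have h1' : ((T ∪ Z1).card : ℝ) + (T ∩ Z1).card = T.card + Z1.card := by exact_mod_cast h1
      have h2' : ((T ∪ Z1).card : ℝ) ≤ s := by
        rw [hs]
        exact_mod_cast h2
      rw [hTc] at h1'
      linarith
    have h1 : ((t : ℝ) - 1) * (987 / 1000 * m) ≤ (T ∩ Z1).card * (987 / 1000 * m) :=
      mul_le_mul_of_nonneg_right h0 (by positivity)
    have h2 : ((T ∩ Z1).card : ℝ) * (987 / 1000 * m) ≤
        ∑ z ∈ T ∩ Z1, (∑ w ∈ Nf adj v, ze adj z w + ∑ w ∈ Zf adj v, ze adj z w) := by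
      rw [← nsmul_eq_mul]
      exact Finset.card_nsmul_le_sum _ _ _ fun z hz => hpt z (Finset.mem_inter.1 hz).2
    rw [Finset.sum_add_distrib] at h2
    have h3 : ∑ z ∈ T ∩ Z1, ∑ w ∈ Nf adj v, ze adj z w ≤ X :=
      Finset.sum_le_sum_of_subset_of_nonneg
        (fun z hz => hTZ (Finset.mem_inter.1 hz).1) fun z _ _ => hXn z
    have h4 : ∑ z ∈ T ∩ Z1, ∑ w ∈ Zf adj v, ze adj z w ≤
        ∑ z ∈ T, ∑ w ∈ Zf adj v, ze adj z w :=
      Finset.sum_le_sum_of_subset_of_nonneg Finset.inter_subset_left fun z _ _ => hUn z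
    have h5 := K.Utop T hTZ (fun z hz z' hz' hz'T =>
      hTtop z hz z' (Finset.mem_sdiff.2 ⟨hz', hz'T⟩))
    rw [hTc] at h5
    linarith
  have hA := K.Asum
  rw [← hs, ← he] at hA
  have hF2 : F = s * (j - 1) - ∑ z ∈ Zf adj v, A adj v z := by
    rw [hF, Finset.sum_sub_distrib, Finset.sum_const, nsmul_eq_mul, ← hj]
  have hD := K.eZW (W := W1 adj m v) (fun w hw => (mem_W1.1 hw).1) 4000 K.W1ta
  rw [← hs, ← hr, ← he, ← hj] at hD
  have hXs := K.Xsum
  rw [← hs, ← hr, ← he, ← hX] at hXs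
  have hr1 : r ≤ 4 * m := by
    refine le_trans ?_ K.W2card
    rw [hr]
    exact_mod_cast Finset.card_le_card K.W1sub
  have hns := K.hns v
  rw [← hj, ← hs] at hns
  have hlo := K.hlo v
  have hup := K.hup v
  rw [← hj] at hlo hup
  exact numbers m s r j t X F e hm hlo hup hns K.s2 ht0 (htj.trans hup) (Nat.cast_nonneg _) hr1
    hD hXs hf hg (by rw [hF2]; linarith)

end

/-- every orientation of a graph with nearly regular sparse non-adjacency graph has a Sullivan
vertex, with a surplus -/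
theorem nc2 [Nonempty V] (adj : V → V → Prop) (has : ∀ x y, adj x y → ¬ adj y x) (m : ℝ)
    (hm : 10 ^ 10 ≤ m) (hlo : ∀ x, (1 - 1 / 1000) * m ≤ ∑ y, H adj x y)
    (hup : ∀ x, ∑ y, H adj x y ≤ m)
    (hco : ∀ x y, x ≠ y → ∑ z, H adj x z * H adj y z ≤ m / 5000000) :
    ∃ v, ({u | adj u v}.ncard : ℝ) + m / 100 ≤
      ({w | w ≠ v ∧ ¬ adj v w ∧ ∃ u, adj v u ∧ adj u w}.ncard : ℝ) := by
  classical
  by_contra hcon
  push Not at hcon
  obtain ⟨v, _, hv⟩ := Finset.exists_min_image (Finset.univ : Finset V)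
    (fun x => ∑ y, O adj y x) Finset.univ_nonempty
  have hin : ∀ x, (({u | adj u x} : Set V).ncard : ℝ) = ∑ y, O adj y x := by
    intro x
    rw [Set.ncard_eq_toFinset_card', Set.toFinset_ofPred]
    unfold O
    rw [Finset.sum_boole]
  have hN : ∀ x, (({w | w ≠ x ∧ ¬ adj x w ∧ ∃ u, adj x u ∧ adj u w} : Set V).ncard) =
      (Nf adj x).card := by
    intro x
    rw [Set.ncard_eq_toFinset_card', Set.toFinset_ofPred]
    unfold Nf
    congr
  have hns : ∀ x, ∑ y, H adj x y - m / 100 ≤ ((Zf adj x).card : ℝ) := by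
    intro x
    have h1 := part has x fun _ => (1 : ℝ)
    simp only [sum_one] at h1
    have h2 : ∑ y, (O adj x y + O adj y x + H adj x y + Dg x y) = ∑ _y : V, (1 : ℝ) :=
      Finset.sum_congr rfl fun y _ => ident has x y
    rw [Finset.sum_add_distrib, Finset.sum_add_distrib, Finset.sum_add_distrib,
      sum_Dg (Finset.mem_univ x), sum_one] at h2
    have h3 : ∑ y, O adj x y = (Cf adj x).card := by
      unfold O Cf
      rw [Finset.sum_boole]
    have h4 := hcon x
    rw [hin x, hN x] at h4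
    linarith
  exact Ctx.false (v := v) ⟨has, hm, hlo, hup, hco, hns, fun x => hv x (Finset.mem_univ x)⟩

end Pool.Agent.SulR
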